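import Pool.Agent.Q269.GR.StA

/-!
# Project GR, job LAG: the mean number of elements of the kernel for a matrix without symmetry
-/

set_option autoImplicit false
set_option linter.all false

open scoped Classical
open Finset

namespace Pool.Agent.Q24.GR.LAG

open Pool.Agent.Q269.GR

section fibre

variable {F : Type} [Field F] [Fintype F]

theorem card_mod (V : Type) [AddCommGroup V] [Module F V] [Finite V] :
    Nat.card V = Fintype.card F ^ Module.finrank F V := by
  have := Fintype.ofFinite V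
  rw [Nat.card_eq_fintype_card]
  exact Module.card_eq_pow_finrank

/-- fibres of a linear map -/
theorem fib_le {V W : Type} [AddCommGroup V] [Module F V] [AddCommGroup W] [Module F W]
    [Fintype V] [Finite W] (L : V →ₗ[F] W) (t : W) :
    (univ.filter fun r : V => L r = t).card * Nat.card (LinearMap.range L) ≤ Fintype.card V := by
  rcases (univ.filter fun r : V => L r = t).eq_empty_or_nonempty with h | ⟨r0, hr0⟩
  · rw [h, card_empty, zero_mul]
    exact Nat.zero_le _
  · rw [mem_filter] at hr0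
    have h1 : (univ.filter fun r : V => L r = t).card = Nat.card (LinearMap.ker L) := by
      rw [Nat.card_eq_fintype_card, Fintype.card_subtype]
      refine card_nbij (fun r => r - r0) ?_ ?_ ?_
      · intro r hr
        rw [mem_coe, mem_filter] at hr ⊢
        refine ⟨mem_univ _, ?_⟩
        rw [LinearMap.mem_ker, map_sub, hr.2, hr0.2, sub_self]
      · intro x _ y _ hxy
        exact sub_left_injective hxy
      · intro y hy
        rw [mem_coe, mem_filter] at hy
        refine ⟨y + r0, ?_, by simp⟩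
        rw [mem_coe, mem_filter]
        refine ⟨mem_univ _, ?_⟩
        rw [map_add, LinearMap.mem_ker.1 hy.2, zero_add, hr0.2]
    rw [h1, card_mod (F := F) (LinearMap.ker L), card_mod (F := F) (LinearMap.range L), ← pow_add,
      ← Nat.card_eq_fintype_card (α := V), card_mod (F := F) V]
    have h2 := LinearMap.finrank_range_add_finrank_ker L
    rw [← h2, add_comm]

/-- a subspace which is not on a line -/
theorem top_of_not_line (R : Submodule F (F × F))
    (h : ∀ v : F × F, v ≠ 0 → ∃ x ∈ R, ∀ z : F, x ≠ z • v) : R = ⊤ := by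
  by_contra hne
  have h1 : Module.finrank F R < 2 := by
    have h2 : Module.finrank F (F × F) = 2 := by simp
    rw [← h2]
    exact Submodule.finrank_lt hne
  have h3 : Module.finrank F R ≤ 1 := by omega
  obtain ⟨v, hv⟩ := finrank_le_one_iff.1 h3
  by_cases hv0 : (v : F × F) = 0
  · obtain ⟨x, hx, hx'⟩ := h (1, 0) (by simp)
    obtain ⟨z, hz⟩ := hv ⟨x, hx⟩
    have h4 := congrArg Subtype.val hz
    rw [Submodule.coe_smul, hv0, smul_zero] at h4
    refine hx' 0 ?_
    rw [zero_smul]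
    exact h4.symm
  · obtain ⟨x, hx, hx'⟩ := h v hv0
    obtain ⟨z, hz⟩ := hv ⟨x, hx⟩
    have h4 := congrArg Subtype.val hz
    rw [Submodule.coe_smul] at h4
    exact hx' z h4.symm

theorem card_top : Nat.card (⊤ : Submodule F (F × F)) = Fintype.card F ^ 2 := by
  rw [card_mod (F := F)]
  congr 1
  rw [finrank_top]
  simp

theorem card_ge (R : Submodule F (F × F)) {x : F × F} (hx : x ∈ R) (h0 : x ≠ 0) :
    Fintype.card F ≤ Nat.card R := by
  rw [card_mod (F := F) R]
  have h1 : 1 ≤ Module.finrank F R := by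
    rw [Nat.one_le_iff_ne_zero]
    intro h
    have h2 := Submodule.finrank_eq_zero.1 h
    rw [h2, Submodule.mem_bot] at hx
    exact h0 hx
  calc Fintype.card F = Fintype.card F ^ 1 := (pow_one _).symm
    _ ≤ _ := Nat.pow_le_pow_right Fintype.card_pos h1

end fibre

section rows

variable {F : Type} [Field F] [Fintype F] [Algebra F2 F] {J : Type} [Fintype J]

/-- the random part of a row -/
noncomputable def rowL (S : Finset J) (w : J → F × F) (i : J) : (J → F) →ₗ[F] F × F :=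
  ∑ j, if j = i ∨ j ∈ S then 0 else (LinearMap.proj j : (J → F) →ₗ[F] F).smulRight (w j)

theorem rowL_apply (S : Finset J) (w : J → F × F) (i : J) (r : J → F) :
    rowL S w i r = ∑ j, if j = i ∨ j ∈ S then 0 else r j • w j := by
  unfold rowL
  rw [LinearMap.sum_apply]
  refine sum_congr rfl fun j _ => ?_
  split_ifs
  · rfl
  · rfl

theorem rowL_mem (S : Finset J) (w : J → F × F) {i j : J} (hji : j ≠ i) (hj : j ∉ S) :
    w j ∈ LinearMap.range (rowL S w i) := by
  refine ⟨Pi.single j 1, ?_⟩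
  rw [rowL_apply, sum_eq_single j]
  · rw [if_neg (by tauto), Pi.single_eq_same, one_smul]
  · intro l _ hl
    split_ifs
    · rfl
    · rw [Pi.single_eq_of_ne hl, zero_smul]
  · intro h
    exact absurd (mem_univ _) h

/-- the fixed part of a row -/
noncomputable def rhs (S : Finset J) (B : J → J → F) (dd : J → F) (a c : J → F2) (w : J → F × F)
    (i : J) : F × F :=
  ∑ j, (if j = i then 0 else if j ∈ S then B i j • w j else 0) + dd i • w i +
    (cf (c i) * (w i).2, cf (a i) * (w i).1)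

theorem eqn_row (S : Finset J) (B : J → J → F) (dd : J → F) (a c : J → F2) (w : J → F × F)
    {i : J} (hi : i ∉ S) (s : J → J → F) :
    eqn (HG S B s) dd a c w i = rowL S w i (s i) + rhs S B dd a c w i := by
  unfold eqn rhs
  rw [rowL_apply, ← add_assoc, ← add_assoc, ← sum_add_distrib]
  congr 2
  refine sum_congr rfl fun j _ => ?_
  unfold HG
  by_cases h1 : j = i
  · simp [h1]
  · by_cases h2 : j ∈ S
    · simp [h1, h2, hi]
    · simp [h1, h2, hi]

/-- the good rows -/
noncomputable def TT (S : Finset J) (B : J → J → F) (dd : J → F) (a c : J → F2) (w : J → F × F)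
    (i : J) : Finset (J → F) := univ.filter fun r => eqn (HG S B fun _ => r) dd a c w i = 0

theorem mem_iff (S : Finset J) (B : J → J → F) (dd : J → F) (a c : J → F2) (w : J → F × F)
    (s : J → J → F) : w ∈ Kn (HG S B s) dd a c ↔ s ∈ Fintype.piFinset (TT S B dd a c w) := by
  rw [mem_Kn, Fintype.mem_piFinset]
  refine forall_congr' fun i => ?_
  unfold TT
  rw [mem_filter]
  constructor
  · intro h
    exact ⟨mem_univ _, h⟩
  · intro h
    exact h.2

/-- the number of the matrices with a given solution -/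
noncomputable def NN (S : Finset J) (B : J → J → F) (dd : J → F) (a c : J → F2)
    (w : J → F × F) : ℕ := ∏ i, (TT S B dd a c w i).card

theorem sum_eq (S : Finset J) (B : J → J → F) (dd : J → F) (a c : J → F2) :
    ∑ s : J → J → F, (Nat.card (Kn (HG S B s) dd a c) : ℝ) =
      ∑ w : J → F × F, (NN S B dd a c w : ℝ) := by
  have h1 : ∀ s : J → J → F, (Nat.card (Kn (HG S B s) dd a c) : ℝ) =
      ∑ w : J → F × F, if w ∈ Kn (HG S B s) dd a c then (1 : ℝ) else 0 := by
    intro s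
    rw [Nat.card_eq_fintype_card, Fintype.card_subtype, card_filter]
    push_cast
    rfl
  simp only [h1]
  rw [sum_comm]
  refine sum_congr rfl fun w _ => ?_
  unfold NN
  rw [← Fintype.card_piFinset]
  simp only [mem_iff]
  rw [sum_boole]
  congr 2
  ext s
  simp

variable (S : Finset J) (B : J → J → F) (dd : J → F) (a c : J → F2)

theorem TT_le {w : J → F × F} {i : J} (hi : i ∉ S) :
    (TT S B dd a c w i).card * Nat.card (LinearMap.range (rowL S w i)) ≤
      Fintype.card F ^ Fintype.card J := by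
  refine le_trans (Nat.mul_le_mul_right _ ?_) ((fib_le (rowL S w i)
    (-rhs S B dd a c w i)).trans (le_of_eq ?_))
  · refine card_le_card fun r hr => ?_
    unfold TT at hr
    simp only [mem_filter] at hr ⊢
    refine ⟨mem_univ _, ?_⟩
    have h2 := eqn_row S B dd a c w hi (fun _ => r)
    rw [hr.2] at h2
    exact eq_neg_of_add_eq_zero_left h2.symm
  · rw [Fintype.card_fun]

theorem TT_le' (w : J → F × F) (i : J) :
    (TT S B dd a c w i).card ≤ Fintype.card F ^ Fintype.card J := by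
  refine (card_le_univ _).trans (le_of_eq ?_)
  rw [Fintype.card_fun]

/-- the vectors are on a line -/
def InL (A : Finset J) (w : J → F × F) : Prop :=
  ∃ v : F × F, v ≠ 0 ∧ ∀ j ∈ A, ∃ z : F, w j = z • v

theorem TT_two {w : J → F × F} {i : J} (hi : i ∉ S) (h : ¬ InL (Sᶜ.erase i) w) :
    (TT S B dd a c w i).card * Fintype.card F ^ 2 ≤ Fintype.card F ^ Fintype.card J := by
  have h1 : LinearMap.range (rowL S w i) = ⊤ := by
    refine top_of_not_line _ fun v hv => ?_
    by_contra hcon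
    push Not at hcon
    refine h ⟨v, hv, fun j hj => ?_⟩
    rw [mem_erase, mem_compl] at hj
    exact hcon _ (rowL_mem S w hj.1 hj.2)
  have h2 := TT_le S B dd a c (w := w) hi
  rw [h1, card_top] at h2
  exact h2

theorem TT_one {w : J → F × F} {i j : J} (hi : i ∉ S) (hj : j ∉ S) (hji : j ≠ i) (h : w j ≠ 0) :
    (TT S B dd a c w i).card * Fintype.card F ≤ Fintype.card F ^ Fintype.card J :=
  (Nat.mul_le_mul_left _ (card_ge _ (rowL_mem S w hji hj) h)).trans (TT_le S B dd a c hi)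

theorem NN_le {w : J → F × F} (A : Finset J) (e : ℕ)
    (h : ∀ i ∈ A, (TT S B dd a c w i).card * e ≤ Fintype.card F ^ Fintype.card J) :
    NN S B dd a c w * e ^ A.card ≤ (Fintype.card F ^ Fintype.card J) ^ Fintype.card J := by
  have h1 : e ^ A.card = ∏ i : J, if i ∈ A then e else 1 := by
    rw [prod_ite_mem, univ_inter, prod_const]
  have h2 : (Fintype.card F ^ Fintype.card J) ^ Fintype.card J =
      ∏ _i : J, Fintype.card F ^ Fintype.card J := by
    rw [prod_const, card_univ]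
  unfold NN
  rw [h1, h2, ← prod_mul_distrib]
  refine Finset.prod_le_prod (fun i _ => Nat.zero_le _) fun i _ => ?_
  by_cases hi : i ∈ A
  · rw [if_pos hi]
    exact h i hi
  · rw [if_neg hi, mul_one]
    exact TT_le' S B dd a c w i

/-! ### the count of the solutions of the fixed rows -/

theorem eqn_add (M : J → J → F) (w w' : J → F × F) (i : J) :
    eqn M dd a c (w + w') i = eqn M dd a c w i + eqn M dd a c w' i := by
  simp only [eqn, Pi.add_apply, smul_add, sum_add_distrib, Prod.fst_add, Prod.snd_add, mul_add]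
  have e : ∀ x y x' y' : F, ((x + x', y + y') : F × F) = (x, y) + (x', y') := fun _ _ _ _ => rfl
  rw [e]
  abel

theorem eqn_smul (M : J → J → F) (t : F) (w : J → F × F) (i : J) :
    eqn M dd a c (t • w) i = t • eqn M dd a c w i := by
  simp only [eqn, Pi.smul_apply, smul_add, Finset.smul_sum, Prod.smul_fst, Prod.smul_snd,
    smul_eq_mul]
  congr 1
  · congr 1
    · exact sum_congr rfl fun j _ => smul_comm _ _ _
    · exact smul_comm _ _ _
  · apply Prod.ext
    · exact mul_left_comm _ _ _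
    · exact mul_left_comm _ _ _

/-- the fixed rows -/
noncomputable def Th : (J → F × F) →ₗ[F] (S → F × F) where
  toFun w κ := eqn (HG S B 0) dd a c w κ
  map_add' w w' := by
    funext κ
    exact eqn_add dd a c _ w w' κ
  map_smul' t w := by
    funext κ
    exact eqn_smul dd a c _ t w κ

theorem dite_sum (y : S → F) (b : J → F) :
    ∑ i, (if h : i ∈ S then y ⟨i, h⟩ else 0) * b i = ∑ κ : S, y κ * b κ := by
  rw [← sum_subset (subset_univ S), ← sum_coe_sort S]
  · refine sum_congr rfl fun κ _ => ?_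
    rw [dif_pos κ.2]
  · intro i _ hi
    rw [dif_neg hi, zero_mul]

theorem surj (inj1 : ∀ v : J → F, (∀ i, i ∉ S → v i = 0) →
    (∀ j, j ∉ S → ∑ i, v i * B i j = 0) → v = 0) (y : S → F) :
    ∃ x : (Sᶜ : Finset J) → F, ∀ κ : S, ∑ j : (Sᶜ : Finset J), B κ j * x j = y κ := by
  obtain ⟨M, hM⟩ : ∃ M : Matrix S (Sᶜ : Finset J) F, M = Matrix.of fun κ j => B κ.1 j.1 := ⟨_, rfl⟩
  have h1 : Function.Injective M.transpose.mulVecLin := by
    rw [← LinearMap.ker_eq_bot, LinearMap.ker_eq_bot']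
    intro y hy
    have h2 := inj1 (fun i => if h : i ∈ S then y ⟨i, h⟩ else 0) (fun i hi => dif_neg hi) (by
      intro j hj
      rw [dite_sum S y (fun i => B i j)]
      have h3 := congrFun hy ⟨j, mem_compl.2 hj⟩
      rw [Matrix.mulVecLin_apply, Matrix.mulVec, dotProduct] at h3
      refine Eq.trans (sum_congr rfl fun κ _ => ?_) h3
      rw [hM, Matrix.transpose_apply, Matrix.of_apply, mul_comm])
    funext κ
    have h3 := congrFun h2 κ
    rw [dif_pos κ.2] at h3
    exact h3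
  have h2 : LinearMap.range M.mulVecLin = ⊤ := by
    apply Submodule.eq_top_of_finrank_eq
    have h3 := LinearMap.finrank_range_of_inj h1
    have h4 := Matrix.rank_transpose M
    unfold Matrix.rank at h4
    rw [← h4, h3]
  obtain ⟨x, hx⟩ := LinearMap.range_eq_top.1 h2 y
  refine ⟨x, fun κ => ?_⟩
  rw [← hx, Matrix.mulVecLin_apply, Matrix.mulVec, dotProduct, hM]
  rfl

theorem Th_surj (inj1 : ∀ v : J → F, (∀ i, i ∉ S → v i = 0) →
    (∀ j, j ∉ S → ∑ i, v i * B i j = 0) → v = 0) : LinearMap.range (Th S B dd a c) = ⊤ := by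
  rw [LinearMap.range_eq_top]
  intro t
  obtain ⟨x1, hx1⟩ := surj S B inj1 (fun κ => (t κ).1)
  obtain ⟨x2, hx2⟩ := surj S B inj1 (fun κ => (t κ).2)
  obtain ⟨w, hw⟩ : ∃ w : J → F × F, w = fun j =>
    if h : j ∈ (Sᶜ : Finset J) then (x1 ⟨j, h⟩, x2 ⟨j, h⟩) else 0 := ⟨_, rfl⟩
  refine ⟨w, ?_⟩
  funext κ
  have hκ : (κ : J) ∉ (Sᶜ : Finset J) := fun h => (mem_compl.1 h) κ.2
  have hwκ : w κ = 0 := by rw [hw]; exact dif_neg hκ
  show eqn (HG S B 0) dd a c w κ = t κ
  unfold eqn
  rw [hwκ, smul_zero, add_zero, Prod.snd_zero, Prod.fst_zero, mul_zero, mul_zero]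
  have h1 : ∑ j, (if j = (κ : J) then (0 : F) else HG S B 0 κ j) • w j =
      ∑ j : (Sᶜ : Finset J), B κ j • w j := by
    rw [← sum_subset (subset_univ (Sᶜ : Finset J)), ← sum_coe_sort (Sᶜ : Finset J)]
    · refine sum_congr rfl fun j _ => ?_
      have : (j : J) ≠ κ := fun h => hκ (h ▸ j.2)
      rw [if_neg this, HG, if_pos (Or.inl κ.2)]
    · intro i _ hi
      have : w i = 0 := by rw [hw]; exact dif_neg hi
      rw [this, smul_zero]
  rw [h1]
  have h2 : ∀ j : (Sᶜ : Finset J), w j = (x1 j, x2 j) := by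
    intro j
    rw [hw]
    exact dif_pos j.2
  simp only [h2]
  have h3 : ∑ j : (Sᶜ : Finset J), B κ j • ((x1 j, x2 j) : F × F) =
      (∑ j : (Sᶜ : Finset J), B κ j * x1 j, ∑ j : (Sᶜ : Finset J), B κ j * x2 j) := by
    apply Prod.ext
    · rw [Prod.fst_sum]
      rfl
    · rw [Prod.snd_sum]
      rfl
  rw [h3, hx1, hx2]
  simp

theorem NN_row {w : J → F × F} (h : NN S B dd a c w ≠ 0) (i : J) :
    ∃ r : J → F, eqn (HG S B fun _ => r) dd a c w i = 0 := by
  unfold NN at h
  rw [prod_ne_zero_iff] at h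
  obtain ⟨r, hr⟩ := card_pos.1 (Nat.pos_of_ne_zero (h i (mem_univ _)))
  unfold TT at hr
  rw [mem_filter] at hr
  exact ⟨r, hr.2⟩

theorem countA (inj1 : ∀ v : J → F, (∀ i, i ∉ S → v i = 0) →
    (∀ j, j ∉ S → ∑ i, v i * B i j = 0) → v = 0) :
    (univ.filter fun w : J → F × F => NN S B dd a c w ≠ 0).card ≤
      Fintype.card F ^ (2 * Sᶜ.card) := by
  have h1 : (univ.filter fun w : J → F × F => NN S B dd a c w ≠ 0).card ≤
      Nat.card (LinearMap.ker (Th S B dd a c)) := by
    rw [Nat.card_eq_fintype_card, Fintype.card_subtype]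
    refine card_le_card fun w hw => ?_
    rw [mem_filter] at hw ⊢
    refine ⟨mem_univ _, ?_⟩
    rw [LinearMap.mem_ker]
    funext κ
    obtain ⟨r, hr⟩ := NN_row S B dd a c hw.2 κ
    show eqn (HG S B 0) dd a c w κ = 0
    rw [← hr]
    unfold eqn HG
    simp only [κ.2, true_or, if_true]
  refine h1.trans (le_of_eq ?_)
  rw [card_mod (F := F)]
  congr 1
  have h2 := LinearMap.finrank_range_add_finrank_ker (Th S B dd a c)
  rw [Th_surj S B dd a c inj1, finrank_top] at h2
  have h3 : Module.finrank F (J → F × F) = 2 * Fintype.card J := by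
    rw [Module.finrank_pi_fintype]
    simp [mul_comm]
  have h4 : Module.finrank F (S → F × F) = 2 * S.card := by
    rw [Module.finrank_pi_fintype]
    simp [mul_comm]
  have h5 : S.card + Sᶜ.card = Fintype.card J := card_add_card_compl S
  rw [h3, h4] at h2
  omega

/-! ### the vectors on a line -/

theorem two_zero (x : F) : x + x = 0 := by
  have h1 : (algebraMap F2 F) (1 + 1) = 0 := by
    have : (1 : F2) + 1 = 0 := by decide
    rw [this, map_zero]
  rw [map_add, map_one] at h1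
  calc x + x = (1 + 1) * x := by ring
    _ = 0 := by rw [h1, zero_mul]

/-- the pairing with the line -/
def ps (v x : F × F) : F := v.2 * x.1 + v.1 * x.2

theorem ps_add (v x y : F × F) : ps v (x + y) = ps v x + ps v y := by
  unfold ps
  rw [Prod.fst_add, Prod.snd_add]
  ring

theorem ps_smul (v : F × F) (t : F) (x : F × F) : ps v (t • x) = t * ps v x := by
  unfold ps
  rw [Prod.smul_fst, Prod.smul_snd, smul_eq_mul, smul_eq_mul]
  ring

theorem ps_sum {ι : Type} (s : Finset ι) (v : F × F) (f : ι → F × F) :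
    ps v (∑ i ∈ s, f i) = ∑ i ∈ s, ps v (f i) := by
  unfold ps
  rw [Prod.fst_sum, Prod.snd_sum, mul_sum, mul_sum, ← sum_add_distrib]

theorem ps_self (v : F × F) : ps v v = 0 := by
  unfold ps
  rw [mul_comm v.2]
  exact two_zero _

/-- the coefficient of `z i` -/
noncomputable def gi (v : F × F) (i : J) : F := cf (c i) * v.2 ^ 2 + cf (a i) * v.1 ^ 2

/-- the relation of a row -/
theorem row_rel {w : J → F × F} (h : NN S B dd a c w ≠ 0) {v : F × F} {z : J → F}
    (hz : ∀ j ∈ (Sᶜ : Finset J), w j = z j • v) {i : J} (hi : i ∉ S) :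
    z i * gi a c v i = -∑ j ∈ S, B i j * ps v (w j) := by
  obtain ⟨r, hr⟩ := NN_row S B dd a c h i
  rw [eqn_row S B dd a c w hi] at hr
  have h1 := congrArg (ps v) hr
  have h0 : ps v (0 : F × F) = 0 := by
    unfold ps
    simp
  rw [ps_add, h0] at h1
  have h2 : ps v (rowL S w i r) = 0 := by
    rw [rowL_apply, ps_sum]
    refine sum_eq_zero fun j _ => ?_
    by_cases hj : j = i ∨ j ∈ S
    · rw [if_pos hj, h0]
    · rw [if_neg hj]
      push Not at hj
      rw [hz j (mem_compl.2 hj.2), ps_smul, ps_smul, ps_self, mul_zero, mul_zero]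
  have h3 : ps v (rhs S B dd a c w i) = ∑ j ∈ S, B i j * ps v (w j) + z i * gi a c v i := by
    unfold rhs
    rw [ps_add, ps_add, ps_sum]
    have e1 : ∑ j, ps v (if j = i then 0 else if j ∈ S then B i j • w j else 0) =
        ∑ j ∈ S, B i j * ps v (w j) := by
      rw [← sum_subset (subset_univ S)]
      · refine sum_congr rfl fun j hj => ?_
        have : j ≠ i := fun h => hi (h ▸ hj)
        rw [if_neg this, if_pos hj, ps_smul]
      · intro j _ hj
        rw [if_neg hj, ite_self, h0]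
    have e2 : ps v (dd i • w i) = 0 := by
      rw [hz i (mem_compl.2 hi), ps_smul, ps_smul, ps_self, mul_zero, mul_zero]
    have e3 : ps v (cf (c i) * (w i).2, cf (a i) * (w i).1) = z i * gi a c v i := by
      rw [hz i (mem_compl.2 hi)]
      unfold ps gi
      simp only [Prod.smul_snd, Prod.smul_fst, smul_eq_mul]
      ring
    rw [e1, e2, e3, add_zero]
  rw [h2, h3, zero_add] at h1
  exact eq_neg_of_add_eq_zero_right h1

theorem cf_zero : (cf (0 : F2) : F) = 0 := map_zero _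
theorem cf_one : (cf (1 : F2) : F) = 1 := map_one _

/-- many rows determine `z i` -/
theorem good_card {m : ℕ} (hG : Gen (Sᶜ : Finset J) a c m) {v : F × F} (hv : v ≠ 0) :
    m ≤ ((Sᶜ : Finset J).filter fun i => gi a c v i ≠ 0).card := by
  have h01 : ∀ z : F2, z = 0 ∨ z = 1 := by decide
  have key : ∀ P : F2 × F2, P ≠ (0, 0) → (∀ x y : F2, (x, y) ≠ (0, 0) → (x, y) ≠ P →
      (cf y : F) * v.2 ^ 2 + cf x * v.1 ^ 2 ≠ 0) →
      m ≤ ((Sᶜ : Finset J).filter fun i => gi a c v i ≠ 0).card := by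
    intro P hP h
    refine (hG P.1 P.2 hP).trans (card_le_card fun i hi => ?_)
    rw [mem_filter] at hi ⊢
    exact ⟨hi.1, h _ _ hi.2.1 hi.2.2⟩
  by_cases h1 : v.1 = 0
  · have h2 : v.2 ≠ 0 := fun h => hv (Prod.ext h1 h)
    refine key (1, 0) (by decide) fun x y h3 h4 => ?_
    rcases h01 x with hx | hx <;> rcases h01 y with hy | hy
    · exact absurd (by rw [hx, hy]) h3
    · rw [hx, hy, cf_zero, cf_one, zero_mul, add_zero, one_mul]
      exact pow_ne_zero 2 h2
    · exact absurd (by rw [hx, hy]) h4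
    · rw [hx, hy, cf_one, h1, one_mul, one_mul]
      simpa using h2
  · by_cases h2 : v.2 = 0
    · refine key (0, 1) (by decide) fun x y h3 h4 => ?_
      rcases h01 x with hx | hx <;> rcases h01 y with hy | hy
      · exact absurd (by rw [hx, hy]) h3
      · exact absurd (by rw [hx, hy]) h4
      · rw [hx, hy, cf_zero, cf_one, zero_mul, zero_add, one_mul]
        exact pow_ne_zero 2 h1
      · rw [hx, hy, cf_one, h2, one_mul, one_mul]
        simpa using h1
    · refine key (1, 1) (by decide) fun x y h3 h4 => ?_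
      rcases h01 x with hx | hx <;> rcases h01 y with hy | hy
      · exact absurd (by rw [hx, hy]) h3
      · rw [hx, hy, cf_zero, cf_one, zero_mul, add_zero, one_mul]
        exact pow_ne_zero 2 h2
      · rw [hx, hy, cf_zero, cf_one, zero_mul, zero_add, one_mul]
        exact pow_ne_zero 2 h1
      · exact absurd (by rw [hx, hy]) h4

theorem countB {m : ℕ} (hG : Gen (Sᶜ : Finset J) a c m) {v : F × F} (hv : v ≠ 0) :
    (univ.filter fun w : J → F × F => NN S B dd a c w ≠ 0 ∧
      ∀ j ∈ (Sᶜ : Finset J), ∃ z : F, w j = z • v).card * Fintype.card F ^ m ≤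
      Fintype.card F ^ (2 * S.card + Sᶜ.card) := by
  obtain ⟨Gd, hGd⟩ : ∃ Gd : Finset J, Gd = (Sᶜ : Finset J).filter fun i => gi a c v i ≠ 0 :=
    ⟨_, rfl⟩
  have hm := good_card S a c hG hv
  rw [← hGd] at hm
  have hsub : Gd ⊆ Sᶜ := by rw [hGd]; exact filter_subset _ _
  obtain ⟨zz, hzz⟩ : ∃ zz : (J → F × F) → J → F, ∀ w, NN S B dd a c w ≠ 0 ∧
      (∀ j ∈ (Sᶜ : Finset J), ∃ z : F, w j = z • v) → ∀ j ∈ (Sᶜ : Finset J), w j = zz w j • v := by
    refine ⟨fun w j => if h : ∃ z : F, w j = z • v then h.choose else 0, fun w hw j hj => ?_⟩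
    have h := hw.2 j hj
    beta_reduce
    rw [dif_pos h]
    exact h.choose_spec
  have h1 : (univ.filter fun w : J → F × F => NN S B dd a c w ≠ 0 ∧
      ∀ j ∈ (Sᶜ : Finset J), ∃ z : F, w j = z • v).card ≤
      (univ : Finset ((S → F × F) × (((Sᶜ \ Gd : Finset J)) → F))).card := by
    refine card_le_card_of_injOn (fun w => (fun κ => w κ, fun i => zz w i)) (fun _ _ => mem_univ _) ?_
    intro w hw w' hw' hww
    rw [mem_coe, mem_filter] at hw hw'
    have e1 := congrArg Prod.fst hww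
    have e2 := congrArg Prod.snd hww
    have e3 : ∀ j ∈ S, w j = w' j := fun j hj => congrFun e1 ⟨j, hj⟩
    have e4 : ∀ i ∈ (Sᶜ : Finset J), zz w i = zz w' i := by
      intro i hi
      by_cases hg : i ∈ Gd
      · have f1 := row_rel S B dd a c hw.2.1 (hzz w hw.2) (mem_compl.1 hi)
        have f2 := row_rel S B dd a c hw'.2.1 (hzz w' hw'.2) (mem_compl.1 hi)
        have f3 : ∑ j ∈ S, B i j * ps v (w j) = ∑ j ∈ S, B i j * ps v (w' j) :=
          sum_congr rfl fun j hj => by rw [e3 j hj]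
        rw [f3, ← f2] at f1
        rw [hGd, mem_filter] at hg
        exact mul_right_cancel₀ hg.2 f1
      · exact congrFun e2 ⟨i, mem_sdiff.2 ⟨hi, hg⟩⟩
    funext j
    by_cases hj : j ∈ S
    · exact e3 j hj
    · have hj' : j ∈ (Sᶜ : Finset J) := mem_compl.2 hj
      rw [hzz w hw.2 j hj', hzz w' hw'.2 j hj', e4 j hj']
  have h2 : (univ : Finset ((S → F × F) × (((Sᶜ \ Gd : Finset J)) → F))).card =
      Fintype.card F ^ (2 * S.card + (Sᶜ.card - Gd.card)) := by
    rw [card_univ, Fintype.card_prod, Fintype.card_fun, Fintype.card_fun, Fintype.card_prod,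
      Fintype.card_coe, Fintype.card_coe, card_sdiff_of_subset hsub, ← sq, ← pow_mul, ← pow_add]
  rw [h2] at h1
  calc _ ≤ Fintype.card F ^ (2 * S.card + (Sᶜ.card - Gd.card)) * Fintype.card F ^ m :=
        Nat.mul_le_mul_right _ h1
    _ = Fintype.card F ^ (2 * S.card + (Sᶜ.card - Gd.card) + m) := (pow_add _ _ _).symm
    _ ≤ _ := by
        refine Nat.pow_le_pow_right Fintype.card_pos ?_
        have := card_le_card hsub
        omega

/-- all the vectors on a line -/
theorem countB1 {m : ℕ} (hG : Gen (Sᶜ : Finset J) a c m) :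
    (univ.filter fun w : J → F × F => NN S B dd a c w ≠ 0 ∧ InL (Sᶜ : Finset J) w).card *
      Fintype.card F ^ m ≤ Fintype.card F ^ (2 + 2 * S.card + Sᶜ.card) := by
  have h1 : (univ.filter fun w : J → F × F => NN S B dd a c w ≠ 0 ∧ InL (Sᶜ : Finset J) w) ⊆
      (univ.filter fun v : F × F => v ≠ 0).biUnion fun v =>
        univ.filter fun w : J → F × F => NN S B dd a c w ≠ 0 ∧
          ∀ j ∈ (Sᶜ : Finset J), ∃ z : F, w j = z • v := by
    intro w hw
    rw [mem_filter] at hw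
    obtain ⟨_, hw1, v, hv, hw2⟩ := hw
    rw [mem_biUnion]
    exact ⟨v, mem_filter.2 ⟨mem_univ _, hv⟩, mem_filter.2 ⟨mem_univ _, hw1, hw2⟩⟩
  have h2 := (card_le_card h1).trans card_biUnion_le
  calc _ ≤ (∑ v ∈ univ.filter fun v : F × F => v ≠ 0, (univ.filter fun w : J → F × F =>
          NN S B dd a c w ≠ 0 ∧ ∀ j ∈ (Sᶜ : Finset J), ∃ z : F, w j = z • v).card) *
          Fintype.card F ^ m := Nat.mul_le_mul_right _ h2
    _ ≤ ∑ v ∈ univ.filter fun v : F × F => v ≠ 0, Fintype.card F ^ (2 * S.card + Sᶜ.card) := by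
        rw [sum_mul]
        refine sum_le_sum fun v hv => ?_
        rw [mem_filter] at hv
        exact countB S B dd a c hG hv.2
    _ ≤ ∑ v : F × F, Fintype.card F ^ (2 * S.card + Sᶜ.card) :=
        sum_le_sum_of_subset (filter_subset _ _)
    _ = _ := by
        rw [sum_const, card_univ, Fintype.card_prod, smul_eq_mul, ← sq, ← pow_add]
        congr 1
        ring

/-- all the vectors but one on a line -/
theorem countB2 : (univ.filter fun w : J → F × F => ∃ i ∈ (Sᶜ : Finset J), InL (Sᶜ.erase i) w).card ≤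
    Sᶜ.card * Fintype.card F ^ (3 + 2 * S.card + Sᶜ.card) := by
  have hline : ∀ (i : J), i ∈ (Sᶜ : Finset J) → ∀ v : F × F,
      (univ.filter fun w : J → F × F => ∀ j ∈ Sᶜ.erase i, ∃ z : F, w j = z • v).card ≤
      Fintype.card F ^ (1 + 2 * S.card + Sᶜ.card) := by
    intro i hi v
    have e1 : (univ.filter fun w : J → F × F => ∀ j ∈ Sᶜ.erase i, ∃ z : F, w j = z • v) ⊆
        Fintype.piFinset fun j => if j ∈ Sᶜ.erase i then univ.image (fun z : F => z • v) else univ := by
      intro w hw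
      rw [mem_filter] at hw
      rw [Fintype.mem_piFinset]
      intro j
      by_cases hj : j ∈ Sᶜ.erase i
      · rw [if_pos hj, mem_image]
        obtain ⟨z, hz⟩ := hw.2 j hj
        exact ⟨z, mem_univ _, hz.symm⟩
      · rw [if_neg hj]
        exact mem_univ _
    refine (card_le_card e1).trans ?_
    rw [Fintype.card_piFinset]
    have e2 : ∏ j : J, (if j ∈ Sᶜ.erase i then univ.image (fun z : F => z • v) else univ :
        Finset (F × F)).card ≤ ∏ j : J, if j ∈ Sᶜ.erase i then Fintype.card F else Fintype.card F ^ 2 := by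
      refine Finset.prod_le_prod (fun _ _ => Nat.zero_le _) fun j _ => ?_
      by_cases hj : j ∈ Sᶜ.erase i
      · rw [if_pos hj, if_pos hj]
        exact card_image_le
      · rw [if_neg hj, if_neg hj, card_univ, Fintype.card_prod, sq]
    refine e2.trans (le_of_eq ?_)
    rw [prod_ite, prod_const, prod_const, ← pow_mul, ← pow_add]
    congr 1
    have e3 : (univ.filter fun j => j ∈ Sᶜ.erase i) = Sᶜ.erase i := by
      ext j
      simp
    have e4 : (univ.filter fun j => ¬ j ∈ Sᶜ.erase i) = (Sᶜ.erase i)ᶜ := by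
      ext j
      simp only [mem_filter, mem_univ, true_and, mem_compl]
    rw [e3, e4, card_compl, card_erase_of_mem hi]
    have h5 : S.card + Sᶜ.card = Fintype.card J := card_add_card_compl S
    have h6 : 0 < Sᶜ.card := card_pos.2 ⟨i, hi⟩
    omega
  have h1 : (univ.filter fun w : J → F × F => ∃ i ∈ (Sᶜ : Finset J), InL (Sᶜ.erase i) w) ⊆
      (Sᶜ ×ˢ (univ : Finset (F × F))).biUnion fun x =>
        univ.filter fun w : J → F × F => ∀ j ∈ Sᶜ.erase x.1, ∃ z : F, w j = z • x.2 := by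
    intro w hw
    rw [mem_filter] at hw
    obtain ⟨_, i, hi, v, _, hw2⟩ := hw
    rw [mem_biUnion]
    exact ⟨(i, v), mem_product.2 ⟨hi, mem_univ _⟩, mem_filter.2 ⟨mem_univ _, hw2⟩⟩
  refine (card_le_card h1).trans (card_biUnion_le.trans ?_)
  calc _ ≤ ∑ x ∈ Sᶜ ×ˢ (univ : Finset (F × F)), Fintype.card F ^ (1 + 2 * S.card + Sᶜ.card) := by
        refine sum_le_sum fun x hx => hline x.1 (mem_product.1 hx).1 x.2
    _ = _ := by
        rw [sum_const, card_product, card_univ, Fintype.card_prod, smul_eq_mul, mul_assoc, ← sq,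
          ← pow_add]
        congr 2
        ring

/-! ### the bounds for the single terms -/

theorem InL_of_rest {w : J → F × F} {A : Finset J} {i0 : J}
    (h : ∀ j ∈ A.erase i0, w j = 0) : InL A w := by
  by_cases h0 : w i0 = 0
  · refine ⟨(1, 0), by simp, fun j hj => ⟨0, ?_⟩⟩
    rw [zero_smul]
    by_cases hji : j = i0
    · rw [hji, h0]
    · exact h j (mem_erase.2 ⟨hji, hj⟩)
  · refine ⟨w i0, h0, fun j hj => ?_⟩
    by_cases hji : j = i0
    · exact ⟨1, by rw [hji, one_smul]⟩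
    · exact ⟨0, by rw [h j (mem_erase.2 ⟨hji, hj⟩), zero_smul]⟩

/-- all but two rows are of full rank -/
theorem caseB2 {w : J → F × F} (h1 : ¬ InL (Sᶜ : Finset J) w) {i0 : J}
    (h2 : InL (Sᶜ.erase i0) w) : ∃ A ⊆ (Sᶜ : Finset J), Sᶜ.card - 2 ≤ A.card ∧
      ∀ i ∈ A, ¬ InL (Sᶜ.erase i) w := by
  obtain ⟨v, hv, hz⟩ := h2
  have hi0 : ∀ z : F, w i0 ≠ z • v := by
    intro z hz0
    refine h1 ⟨v, hv, fun j hj => ?_⟩
    by_cases hji : j = i0
    · exact ⟨z, by rw [hji]; exact hz0⟩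
    · exact hz j (mem_erase.2 ⟨hji, hj⟩)
  obtain ⟨j1, hj1, hw1⟩ : ∃ j1 ∈ Sᶜ.erase i0, w j1 ≠ 0 := by
    by_contra hcon
    push Not at hcon
    exact h1 (InL_of_rest hcon)
  refine ⟨(Sᶜ.erase i0).erase j1, (erase_subset _ _).trans (erase_subset _ _), ?_, ?_⟩
  · have e1 := pred_card_le_card_erase (s := Sᶜ.erase i0) (a := j1)
    have e2 := pred_card_le_card_erase (s := (Sᶜ : Finset J)) (a := i0)
    omega
  · rintro i hi ⟨v', hv', hz'⟩
    rw [mem_erase, mem_erase] at hi
    have hi0' : i0 ∈ Sᶜ.erase i ∨ i0 ∉ (Sᶜ : Finset J) := by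
      by_cases h : i0 ∈ (Sᶜ : Finset J)
      · exact Or.inl (mem_erase.2 ⟨fun h' => hi.2.1 h'.symm, h⟩)
      · exact Or.inr h
    have hmem : i0 ∈ (Sᶜ : Finset J) := by
      by_contra h
      refine h1 ⟨v, hv, fun j hj => hz j (mem_erase.2 ⟨fun h' => h (h' ▸ hj), hj⟩)⟩
    obtain ⟨α, hα⟩ := hz' i0 (mem_erase.2 ⟨fun h' => hi.2.1 h'.symm, hmem⟩)
    obtain ⟨β, hβ⟩ := hz' j1 (mem_erase.2 ⟨fun h' => hi.1 h'.symm, (mem_erase.1 hj1).2⟩)
    obtain ⟨z, hz1⟩ := hz j1 hj1
    have hβ0 : β ≠ 0 := by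
      rintro rfl
      rw [zero_smul] at hβ
      exact hw1 hβ
    refine hi0 (α * (β⁻¹ * z)) ?_
    rw [mul_smul, mul_smul, ← hz1, hβ, smul_smul β⁻¹, inv_mul_cancel₀ hβ0, one_smul]
    exact hα

end rows

theorem num_bound {Q s l : ℕ} (hQ : 4 ≤ Q) (hl : 4 * s + 64 ≤ l) :
    16 * l * Q ^ (7 + 2 * s) ≤ Q ^ l := by
  obtain ⟨t, ht⟩ : ∃ t, l = 7 + 2 * s + (2 + t) ∧ l ≤ 2 * t := ⟨l - 9 - 2 * s, by omega, by omega⟩
  have h1 : Q ^ l = Q ^ (7 + 2 * s) * (Q ^ 2 * Q ^ t) := by
    rw [← pow_add, ← pow_add, ← ht.1]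
  rw [h1, mul_comm]
  refine Nat.mul_le_mul_left _ ?_
  have h2 : 4 ^ 2 ≤ Q ^ 2 := Nat.pow_le_pow_left hQ 2
  have h3 : 4 ^ t ≤ Q ^ t := Nat.pow_le_pow_left hQ t
  have h4 : l ≤ 4 ^ t := by
    calc l ≤ 2 * t := ht.2
      _ ≤ 2 ^ (2 * t) := Nat.lt_two_pow_self.le
      _ = 4 ^ t := by rw [pow_mul]; norm_num
  exact Nat.mul_le_mul (by omega) (h4.trans h3)

theorem t_LAG : S_LAG := by
  intro F _ _ _ hF4 J _ S B dd a c inj1 inj2 hG
  obtain ⟨Q, hQ⟩ : ∃ Q : ℕ, Q = Fintype.card F := ⟨_, rfl⟩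
  obtain ⟨n, hn⟩ : ∃ n : ℕ, n = Fintype.card J := ⟨_, rfl⟩
  obtain ⟨l, hl⟩ : ∃ l : ℕ, l = (Sᶜ : Finset J).card := ⟨_, rfl⟩
  obtain ⟨s, hs⟩ : ∃ s : ℕ, s = S.card := ⟨_, rfl⟩
  rw [← hs] at hG
  rw [← hQ] at hF4
  have hl64 : 4 * s + 64 ≤ l := by
    have := hG 1 0 (by decide)
    rw [hl]
    exact this.trans (card_filter_le _ _)
  obtain ⟨NF, hNF⟩ : ∃ NF : ℕ, NF = (Q ^ n) ^ n := ⟨_, rfl⟩
  have hQ0 : 0 < Q := by omega
  have hNF0 : 0 < NF := by rw [hNF]; positivity
  have hcardF : (Fintype.card (J → J → F) : ℝ) = NF := by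
    rw [Fintype.card_fun, Fintype.card_fun, ← hQ, ← hn, hNF]
  rw [sum_eq, hcardF]
  -- the four parts
  obtain ⟨w0, hw0⟩ : ∃ f : (J → F × F) → ℝ, f = fun w => (NN S B dd a c w : ℝ) := ⟨_, rfl⟩
  have hnn : ∀ w, 0 ≤ w0 w := fun w => by rw [hw0]; exact Nat.cast_nonneg _
  have hZ : ∑ w ∈ univ.filter (fun w : J → F × F => NN S B dd a c w ≠ 0 ∧
      ∀ j ∈ (Sᶜ : Finset J), w j = 0), w0 w ≤ NF := by
    have e1 : (univ.filter (fun w : J → F × F => NN S B dd a c w ≠ 0 ∧
      ∀ j ∈ (Sᶜ : Finset J), w j = 0)) ⊆ {0} := by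
      intro w hw
      rw [mem_filter] at hw
      obtain ⟨_, hw1, hw2⟩ := hw
      rw [mem_singleton]
      have key : ∀ i, i ∉ S → ∑ j ∈ S, B i j • w j = 0 := by
        intro i hi
        obtain ⟨r, hr⟩ := NN_row S B dd a c hw1 i
        rw [eqn_row S B dd a c w hi] at hr
        have f1 : rowL S w i r = 0 := by
          rw [rowL_apply]
          refine sum_eq_zero fun j _ => ?_
          by_cases hj : j = i ∨ j ∈ S
          · rw [if_pos hj]
          · rw [if_neg hj]
            push Not at hj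
            rw [hw2 j (mem_compl.2 hj.2), smul_zero]
        have f2 : rhs S B dd a c w i = ∑ j ∈ S, B i j • w j := by
          unfold rhs
          rw [hw2 i (mem_compl.2 hi), smul_zero, add_zero, Prod.fst_zero, Prod.snd_zero, mul_zero,
            mul_zero]
          have f3 : ∑ j, (if j = i then 0 else if j ∈ S then B i j • w j else 0) =
              ∑ j ∈ S, B i j • w j := by
            rw [← sum_subset (subset_univ S)]
            · refine sum_congr rfl fun j hj => ?_
              have : j ≠ i := fun h => hi (h ▸ hj)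
              rw [if_neg this, if_pos hj]
            · intro j _ hj
              rw [if_neg hj, ite_self]
          rw [f3]
          exact add_zero _
        rw [f1, f2, zero_add] at hr
        exact hr
      have hx := inj2 (fun j => (w j).1) (fun i hi => by rw [hw2 i (mem_compl.2 hi)]; rfl) (by
        intro i hi
        have := congrArg Prod.fst (key i hi)
        rw [Prod.fst_sum] at this
        rw [← sum_subset (subset_univ S)]
        · refine Eq.trans (sum_congr rfl fun j _ => ?_) this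
          rw [Prod.smul_fst, smul_eq_mul, mul_comm]
        · intro j _ hj
          rw [hw2 j (mem_compl.2 hj)]
          simp)
      have hy := inj2 (fun j => (w j).2) (fun i hi => by rw [hw2 i (mem_compl.2 hi)]; rfl) (by
        intro i hi
        have := congrArg Prod.snd (key i hi)
        rw [Prod.snd_sum] at this
        rw [← sum_subset (subset_univ S)]
        · refine Eq.trans (sum_congr rfl fun j _ => ?_) this
          rw [Prod.smul_snd, smul_eq_mul, mul_comm]
        · intro j _ hj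
          rw [hw2 j (mem_compl.2 hj)]
          simp)
      funext j
      exact Prod.ext (congrFun hx j) (congrFun hy j)
    refine (sum_le_sum_of_subset_of_nonneg e1 fun w _ _ => hnn w).trans ?_
    rw [sum_singleton, hw0]
    have e2 := NN_le S B dd a c (w := 0) ∅ 1 (by simp)
    rw [card_empty, pow_zero, mul_one, ← hQ, ← hn, ← hNF] at e2
    beta_reduce
    exact_mod_cast e2
  have hA : ∑ w ∈ univ.filter (fun w : J → F × F => NN S B dd a c w ≠ 0 ∧
      ∀ i ∈ (Sᶜ : Finset J), ¬ InL (Sᶜ.erase i) w), w0 w ≤ NF := by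
    have e1 : ∀ w ∈ univ.filter (fun w : J → F × F => NN S B dd a c w ≠ 0 ∧
        ∀ i ∈ (Sᶜ : Finset J), ¬ InL (Sᶜ.erase i) w), w0 w ≤ NF / (Q : ℝ) ^ (2 * l) := by
      intro w hw
      rw [mem_filter] at hw
      have e2 := NN_le S B dd a c (w := w) (Sᶜ) (Fintype.card F ^ 2) (fun i hi =>
        TT_two S B dd a c (mem_compl.1 hi) (hw.2.2 i hi))
      rw [← pow_mul, ← hQ, ← hn, ← hNF, ← hl] at e2
      rw [le_div_iff₀ (by positivity), hw0]
      beta_reduce
      exact_mod_cast e2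
    refine (sum_le_card_nsmul _ _ _ e1).trans ?_
    rw [nsmul_eq_mul]
    have e3 : (univ.filter (fun w : J → F × F => NN S B dd a c w ≠ 0 ∧
        ∀ i ∈ (Sᶜ : Finset J), ¬ InL (Sᶜ.erase i) w)).card ≤ Q ^ (2 * l) := by
      rw [hQ, hl]
      refine (card_le_card fun w hw => ?_).trans (countA S B dd a c inj1)
      rw [mem_filter] at hw ⊢
      exact ⟨hw.1, hw.2.1⟩
    have e4 : (((univ.filter (fun w : J → F × F => NN S B dd a c w ≠ 0 ∧
        ∀ i ∈ (Sᶜ : Finset J), ¬ InL (Sᶜ.erase i) w)).card : ℕ) : ℝ) ≤ (Q : ℝ) ^ (2 * l) := by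
      exact_mod_cast e3
    calc _ ≤ (Q : ℝ) ^ (2 * l) * (NF / (Q : ℝ) ^ (2 * l)) :=
          mul_le_mul_of_nonneg_right e4 (by positivity)
      _ = NF := by field_simp
  have hB1 : ∑ w ∈ univ.filter (fun w : J → F × F => NN S B dd a c w ≠ 0 ∧
      InL (Sᶜ : Finset J) w ∧ ∃ j ∈ (Sᶜ : Finset J), w j ≠ 0), w0 w ≤ 1 / 16 * NF := by
    have e1 : ∀ w ∈ univ.filter (fun w : J → F × F => NN S B dd a c w ≠ 0 ∧
        InL (Sᶜ : Finset J) w ∧ ∃ j ∈ (Sᶜ : Finset J), w j ≠ 0),
        w0 w ≤ NF / (Q : ℝ) ^ (l - 1) := by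
      intro w hw
      rw [mem_filter] at hw
      obtain ⟨_, hw1, hw2, j, hj, hwj⟩ := hw
      have e2 := NN_le S B dd a c (w := w) (Sᶜ.erase j) (Fintype.card F) (fun i hi => by
        rw [mem_erase] at hi
        exact TT_one S B dd a c (mem_compl.1 hi.2) (mem_compl.1 hj) (Ne.symm hi.1) hwj)
      rw [card_erase_of_mem hj, ← hQ, ← hn, ← hNF, ← hl] at e2
      rw [le_div_iff₀ (by positivity), hw0]
      beta_reduce
      exact_mod_cast e2
    refine (sum_le_card_nsmul _ _ _ e1).trans ?_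
    rw [nsmul_eq_mul]
    have e3 : (univ.filter (fun w : J → F × F => NN S B dd a c w ≠ 0 ∧
        InL (Sᶜ : Finset J) w ∧ ∃ j ∈ (Sᶜ : Finset J), w j ≠ 0)).card * Q ^ (4 * s + 64) ≤
        Q ^ (2 + 2 * s + l) := by
      rw [hQ, hl]
      have := countB1 S B dd a c hG
      rw [hs] at this ⊢
      refine (Nat.mul_le_mul_right _ (card_le_card fun w hw => ?_)).trans this
      rw [mem_filter] at hw ⊢
      exact ⟨hw.1, hw.2.1, hw.2.2.1⟩
    obtain ⟨m, hm⟩ : ∃ m : ℕ, m = (univ.filter (fun w : J → F × F => NN S B dd a c w ≠ 0 ∧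
        InL (Sᶜ : Finset J) w ∧ ∃ j ∈ (Sᶜ : Finset J), w j ≠ 0)).card := ⟨_, rfl⟩
    rw [← hm] at e3 ⊢
    have e5 : 16 * m ≤ Q ^ (l - 1) := by
      have f1 : 16 * m * Q ^ (4 * s + 64) ≤ Q ^ (l - 1) * Q ^ (4 * s + 64) := by
        calc 16 * m * Q ^ (4 * s + 64) = 16 * (m * Q ^ (4 * s + 64)) := by ring
          _ ≤ Q ^ 2 * Q ^ (2 + 2 * s + l) := Nat.mul_le_mul
              (by calc 16 = 4 ^ 2 := by norm_num
                    _ ≤ Q ^ 2 := Nat.pow_le_pow_left hF4 2) e3
          _ = Q ^ (2 + (2 + 2 * s + l)) := (pow_add _ _ _).symm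
          _ ≤ Q ^ (l - 1 + (4 * s + 64)) := Nat.pow_le_pow_right hQ0 (by omega)
          _ = _ := pow_add _ _ _
      exact Nat.le_of_mul_le_mul_right f1 (by positivity)
    have e6 : (m : ℝ) ≤ 1 / 16 * (Q : ℝ) ^ (l - 1) := by
      have : (16 : ℝ) * m ≤ (Q : ℝ) ^ (l - 1) := by exact_mod_cast e5
      linarith
    calc (m : ℝ) * (NF / (Q : ℝ) ^ (l - 1)) ≤ 1 / 16 * (Q : ℝ) ^ (l - 1) * (NF / (Q : ℝ) ^ (l - 1)) :=
          mul_le_mul_of_nonneg_right e6 (by positivity)
      _ = 1 / 16 * NF := by field_simp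
  have hB2 : ∑ w ∈ univ.filter (fun w : J → F × F => ¬ InL (Sᶜ : Finset J) w ∧
      ∃ i ∈ (Sᶜ : Finset J), InL (Sᶜ.erase i) w), w0 w ≤ 1 / 16 * NF := by
    have e1 : ∀ w ∈ univ.filter (fun w : J → F × F => ¬ InL (Sᶜ : Finset J) w ∧
        ∃ i ∈ (Sᶜ : Finset J), InL (Sᶜ.erase i) w),
        w0 w ≤ NF / (Q : ℝ) ^ (2 * (l - 2)) := by
      intro w hw
      rw [mem_filter] at hw
      obtain ⟨_, hw1, i0, hi0, hw2⟩ := hw
      obtain ⟨A, hA1, hA2, hA3⟩ := caseB2 S hw1 hw2
      have e2 := NN_le S B dd a c (w := w) A (Fintype.card F ^ 2) (fun i hi =>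
        TT_two S B dd a c (mem_compl.1 (hA1 hi)) (hA3 i hi))
      rw [← pow_mul, ← hQ, ← hn, ← hNF] at e2
      rw [← hl] at hA2
      have e3 : NN S B dd a c w * Q ^ (2 * (l - 2)) ≤ NF :=
        (Nat.mul_le_mul_left _ (Nat.pow_le_pow_right hQ0 (by omega))).trans e2
      rw [le_div_iff₀ (by positivity), hw0]
      beta_reduce
      exact_mod_cast e3
    refine (sum_le_card_nsmul _ _ _ e1).trans ?_
    rw [nsmul_eq_mul]
    have e3 : (univ.filter (fun w : J → F × F => ¬ InL (Sᶜ : Finset J) w ∧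
        ∃ i ∈ (Sᶜ : Finset J), InL (Sᶜ.erase i) w)).card ≤ l * Q ^ (3 + 2 * s + l) := by
      rw [hQ, hl, hs]
      refine (card_le_card fun w hw => ?_).trans (countB2 S)
      rw [mem_filter] at hw ⊢
      exact ⟨hw.1, hw.2.2⟩
    obtain ⟨m, hm⟩ : ∃ m : ℕ, m = (univ.filter (fun w : J → F × F => ¬ InL (Sᶜ : Finset J) w ∧
        ∃ i ∈ (Sᶜ : Finset J), InL (Sᶜ.erase i) w)).card := ⟨_, rfl⟩
    rw [← hm] at e3 ⊢
    have e5 : 16 * m ≤ Q ^ (2 * (l - 2)) := by
      have f1 : 16 * m * Q ^ 4 ≤ Q ^ (2 * (l - 2)) * Q ^ 4 := by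
        calc 16 * m * Q ^ 4 ≤ 16 * (l * Q ^ (3 + 2 * s + l)) * Q ^ 4 :=
              Nat.mul_le_mul_right _ (Nat.mul_le_mul_left _ e3)
          _ = (16 * l * Q ^ (7 + 2 * s)) * Q ^ l := by ring
          _ ≤ Q ^ l * Q ^ l := Nat.mul_le_mul_right _ (num_bound hF4 hl64)
          _ = Q ^ (2 * (l - 2) + 4) := by
              rw [← pow_add]
              congr 1
              omega
          _ = _ := pow_add _ _ _
      exact Nat.le_of_mul_le_mul_right f1 (by positivity)
    have e6 : (m : ℝ) ≤ 1 / 16 * (Q : ℝ) ^ (2 * (l - 2)) := by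
      have : (16 : ℝ) * m ≤ (Q : ℝ) ^ (2 * (l - 2)) := by exact_mod_cast e5
      linarith
    calc (m : ℝ) * (NF / (Q : ℝ) ^ (2 * (l - 2))) ≤
        1 / 16 * (Q : ℝ) ^ (2 * (l - 2)) * (NF / (Q : ℝ) ^ (2 * (l - 2))) :=
          mul_le_mul_of_nonneg_right e6 (by positivity)
      _ = 1 / 16 * NF := by field_simp
  -- together
  have hall : ∑ w : J → F × F, w0 w ≤
      ∑ w ∈ univ.filter (fun w : J → F × F => NN S B dd a c w ≠ 0 ∧
        ∀ j ∈ (Sᶜ : Finset J), w j = 0), w0 w +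
      ∑ w ∈ univ.filter (fun w : J → F × F => NN S B dd a c w ≠ 0 ∧
        ∀ i ∈ (Sᶜ : Finset J), ¬ InL (Sᶜ.erase i) w), w0 w +
      ∑ w ∈ univ.filter (fun w : J → F × F => NN S B dd a c w ≠ 0 ∧
        InL (Sᶜ : Finset J) w ∧ ∃ j ∈ (Sᶜ : Finset J), w j ≠ 0), w0 w +
      ∑ w ∈ univ.filter (fun w : J → F × F => ¬ InL (Sᶜ : Finset J) w ∧
        ∃ i ∈ (Sᶜ : Finset J), InL (Sᶜ.erase i) w), w0 w := by
    simp only [sum_filter]
    rw [← sum_add_distrib, ← sum_add_distrib, ← sum_add_distrib]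
    refine sum_le_sum fun w _ => ?_
    have hw := hnn w
    have p1 : 0 ≤ (if NN S B dd a c w ≠ 0 ∧ ∀ j ∈ (Sᶜ : Finset J), w j = 0 then w0 w else 0) := by
      split_ifs <;> simp [hw]
    have p2 : 0 ≤ (if NN S B dd a c w ≠ 0 ∧ ∀ i ∈ (Sᶜ : Finset J), ¬ InL (Sᶜ.erase i) w
        then w0 w else 0) := by
      split_ifs <;> simp [hw]
    have p3 : 0 ≤ (if NN S B dd a c w ≠ 0 ∧ InL (Sᶜ : Finset J) w ∧
        ∃ j ∈ (Sᶜ : Finset J), w j ≠ 0 then w0 w else 0) := by
      split_ifs <;> simp [hw]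
    have p4 : 0 ≤ (if ¬ InL (Sᶜ : Finset J) w ∧ ∃ i ∈ (Sᶜ : Finset J), InL (Sᶜ.erase i) w
        then w0 w else 0) := by
      split_ifs <;> simp [hw]
    by_cases h0 : NN S B dd a c w = 0
    · have : w0 w = 0 := by
        rw [hw0]
        beta_reduce
        exact_mod_cast h0
      rw [this] at p1 p2 p3 p4 ⊢
      linarith
    by_cases h1 : ∀ j ∈ (Sᶜ : Finset J), w j = 0
    · rw [if_pos (⟨h0, h1⟩ : NN S B dd a c w ≠ 0 ∧ ∀ j ∈ (Sᶜ : Finset J), w j = 0)]
      linarith
    by_cases h2 : InL (Sᶜ : Finset J) w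
    · push Not at h1
      rw [if_pos (⟨h0, h2, h1⟩ : NN S B dd a c w ≠ 0 ∧ InL (Sᶜ : Finset J) w ∧
        ∃ j ∈ (Sᶜ : Finset J), w j ≠ 0)]
      linarith
    by_cases h3 : ∃ i ∈ (Sᶜ : Finset J), InL (Sᶜ.erase i) w
    · rw [if_pos (⟨h2, h3⟩ : ¬ InL (Sᶜ : Finset J) w ∧ ∃ i ∈ (Sᶜ : Finset J), InL (Sᶜ.erase i) w)]
      linarith
    · push Not at h3
      rw [if_pos (⟨h0, h3⟩ : NN S B dd a c w ≠ 0 ∧ ∀ i ∈ (Sᶜ : Finset J), ¬ InL (Sᶜ.erase i) w)]
      linarith
  rw [hw0] at hall hZ hA hB1 hB2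
  linarith

end Pool.Agent.Q24.GR.LAG
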