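import Pool.Agent.Q269.GR.StA

/-!
# Project GR, job LAU: the mean number of elements of the kernel in the unitary case
-/

set_option autoImplicit false
set_option linter.all false

open scoped Classical
open Finset

namespace Pool.Agent.Q24.GR.LAU

open Pool.Agent.Q269.GR
open Pool.Agent.Y164.PS (sg sg_add sg_zero sg_one abs_sg)

section basics

variable {F : Type} [Field F] [Fintype F] [Algebra F2 F] {Q : ℕ}

theorem charP2 : CharP F 2 := charP_of_injective_algebraMap (algebraMap F2 F).injective 2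

theorem Q_pow (hQ : Fintype.card F = Q ^ 2) : ∃ j : ℕ, Q = 2 ^ j := by
  have : CharP F 2 := charP2
  obtain ⟨n, hp, hn⟩ := FiniteField.card F 2
  have h1 : Q ∣ 2 ^ (n : ℕ) := by
    rw [← hn, hQ]
    exact dvd_pow_self Q two_ne_zero
  obtain ⟨j, _, hj⟩ := (Nat.dvd_prime_pow Nat.prime_two).1 h1
  exact ⟨j, hj⟩

theorem Q_two (hQ : Fintype.card F = Q ^ 2) : 2 ≤ Q := by
  have h1 : 1 < Fintype.card F := Fintype.one_lt_card
  rw [hQ] at h1
  by_contra h
  have : Q ≤ 1 := by omega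
  have := Nat.pow_le_pow_left this 2
  omega

theorem add_pow_Q (hQ : Fintype.card F = Q ^ 2) (x y : F) : (x + y) ^ Q = x ^ Q + y ^ Q := by
  have : CharP F 2 := charP2
  obtain ⟨j, hj⟩ := Q_pow hQ
  rw [hj]
  have : Fact (Nat.Prime 2) := ⟨Nat.prime_two⟩
  exact add_pow_char_pow x y 2 j

theorem pow_QQ (hQ : Fintype.card F = Q ^ 2) (x : F) : (x ^ Q) ^ Q = x := by
  rw [← pow_mul, ← sq, ← hQ]
  exact FiniteField.pow_card x

theorem hf_conj (hQ : Fintype.card F = Q ^ 2) (z z' : V F) : hf Q z z' ^ Q = hf Q z' z := by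
  unfold hf
  rw [add_pow_Q hQ, add_pow_Q hQ, add_pow_Q hQ, mul_pow, mul_pow, mul_pow, mul_pow, pow_QQ hQ,
    pow_QQ hQ, pow_QQ hQ, pow_QQ hQ]
  ring

theorem hf_add_right (z x y : V F) : hf Q z (x + y) = hf Q z x + hf Q z y := by
  unfold hf
  simp only [Prod.fst_add, Prod.snd_add]
  ring

theorem hf_smul_right (z : V F) (t : F) (x : V F) : hf Q z (t • x) = t * hf Q z x := by
  unfold hf
  simp only [Prod.smul_fst, Prod.smul_snd, smul_eq_mul]
  ring

theorem hf_zero_right (z : V F) : hf Q z 0 = 0 := by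
  unfold hf
  simp

theorem hf_add_left (hQ : Fintype.card F = Q ^ 2) (x y z : V F) :
    hf Q (x + y) z = hf Q x z + hf Q y z := by
  unfold hf
  simp only [Prod.fst_add, Prod.snd_add, add_pow_Q hQ]
  ring

theorem hf_smul_left (t : F) (x z : V F) : hf Q (t • x) z = t ^ Q * hf Q x z := by
  unfold hf
  simp only [Prod.smul_fst, Prod.smul_snd, smul_eq_mul, mul_pow]
  ring

theorem hf_zero_left (hQ : Fintype.card F = Q ^ 2) (z : V F) : hf Q 0 z = 0 := by
  rw [← hf_conj hQ, hf_zero_right, zero_pow]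
  have := Q_two hQ
  omega

theorem hf_sum_left (hQ : Fintype.card F = Q ^ 2) {ι : Type} (s : Finset ι) (f : ι → V F)
    (z : V F) : hf Q (∑ i ∈ s, f i) z = ∑ i ∈ s, hf Q (f i) z := by
  induction s using Finset.induction_on with
  | empty => rw [sum_empty, sum_empty, hf_zero_left hQ]
  | insert i s hi ih => rw [sum_insert hi, sum_insert hi, hf_add_left hQ, ih]

/-- the form is not degenerate -/
theorem hf_nd (hQ : Fintype.card F = Q ^ 2) {z : V F} (h : ∀ x : V F, hf Q x z = 0) : z = 0 := by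
  have hQ0 : Q ≠ 0 := by
    have := Q_two hQ
    omega
  have h1 := h ((0, 0), (1, 0))
  have h2 := h ((0, 0), (0, 1))
  have h3 := h ((1, 0), (0, 0))
  have h4 := h ((0, 1), (0, 0))
  unfold hf at h1 h2 h3 h4
  simp [hQ0] at h1 h2 h3 h4
  exact Prod.ext (Prod.ext h1 h2) (Prod.ext h3 h4)

theorem tr_sq (x : F) : Algebra.trace F2 F (x ^ 2) = Algebra.trace F2 F x := by
  have h := Algebra.trace_eq_of_algEquiv (FiniteField.frobeniusAlgEquivOfAlgebraic F2 F) x
  have h2 : FiniteField.frobeniusAlgEquivOfAlgebraic F2 F x = x ^ 2 := by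
    rw [FiniteField.coe_frobeniusAlgEquivOfAlgebraic]
    simp [ZMod.card]
  rw [← h, h2]

theorem ts_Q (hQ : Fintype.card F = Q ^ 2) (x : F) : ts (x ^ Q) = ts x := by
  obtain ⟨j, hj⟩ := Q_pow hQ
  unfold ts
  congr 1
  rw [hj]
  clear hj
  induction j with
  | zero => rw [pow_zero, pow_one]
  | succ j ih => rw [pow_succ, pow_mul, tr_sq, ih]

theorem ts_add (x y : F) : ts (x + y) = ts x * ts y := by
  unfold ts
  rw [map_add, sg_add]

theorem ts_zero : ts (0 : F) = 1 := by
  unfold ts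
  rw [map_zero, sg_zero]

theorem abs_ts (x : F) : |ts x| = 1 := abs_sg _

theorem ts_sum {ι : Type} (s : Finset ι) (f : ι → F) : ts (∑ i ∈ s, f i) = ∏ i ∈ s, ts (f i) := by
  induction s using Finset.induction_on with
  | empty => rw [sum_empty, prod_empty, ts_zero]
  | insert i s hi ih => rw [sum_insert hi, prod_insert hi, ts_add, ih]

theorem ts_nd {x : F} (hx : x ≠ 0) : ∃ t : F, ts (t * x) ≠ 1 := by
  by_contra hcon
  push Not at hcon
  have h1 := (traceForm_nondegenerate F2 F)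
  have h2 : ∀ y : F, Algebra.traceForm F2 F x y = 0 := by
    intro y
    rw [Algebra.traceForm_apply, mul_comm]
    have h3 := hcon y
    unfold ts sg at h3
    by_contra h4
    rw [if_neg h4] at h3
    norm_num at h3
  exact hx (h1.1 x h2)

/-- orthogonality -/
theorem char_sum {A : Type} [AddCommGroup A] [Fintype A] (χ : A → ℝ)
    (h : ∀ x y, χ (x + y) = χ x * χ y) (h0 : ∃ x, χ x ≠ 1) : ∑ x, χ x = 0 := by
  obtain ⟨x0, hx0⟩ := h0
  have h1 : χ x0 * ∑ x, χ x = ∑ x, χ x := by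
    rw [mul_sum]
    simp only [← h]
    exact Fintype.sum_equiv (Equiv.addLeft x0) _ _ fun x => rfl
  have h2 : (χ x0 - 1) * ∑ x, χ x = 0 := by linarith
  rcases mul_eq_zero.1 h2 with h3 | h3
  · exact absurd (by linarith) hx0
  · exact h3

/-- the number of elements of the orthogonal of a subspace -/
theorem card_perp (hQ : Fintype.card F = Q ^ 2) (U : Submodule F (V F))
    (hU : Nat.card U = Fintype.card F ^ 2) :
    (univ.filter fun x : V F => ∀ z ∈ U, hf Q x z = 0).card = Fintype.card F ^ 2 := by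
  have h1 : ∀ x : V F, ∑ z : U, ts (hf Q x z) =
      if ∀ z ∈ U, hf Q x z = 0 then (Fintype.card F : ℝ) ^ 2 else 0 := by
    intro x
    by_cases h : ∀ z ∈ U, hf Q x z = 0
    · rw [if_pos h]
      have : ∀ z : U, ts (hf Q x z) = 1 := fun z => by rw [h z z.2, ts_zero]
      simp only [this]
      rw [sum_const, card_univ, ← Nat.card_eq_fintype_card, hU]
      simp
    · rw [if_neg h]
      push Not at h
      obtain ⟨z, hz, hz0⟩ := h
      refine char_sum (fun z : U => ts (hf Q x z)) (fun z z' => ?_) ?_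
      · rw [Submodule.coe_add, hf_add_right, ts_add]
      · obtain ⟨t, ht⟩ := ts_nd hz0
        refine ⟨t • ⟨z, hz⟩, ?_⟩
        rw [Submodule.coe_smul, hf_smul_right]
        exact ht
  have h2 : ∀ z : V F, ∑ x : V F, ts (hf Q x z) = if z = 0 then (Fintype.card F : ℝ) ^ 4 else 0 := by
    intro z
    by_cases h : z = 0
    · rw [if_pos h, h]
      simp only [hf_zero_right, ts_zero]
      rw [sum_const, card_univ]
      simp only [V, Fintype.card_prod, nsmul_eq_mul, mul_one]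
      push_cast
      ring
    · rw [if_neg h]
      have h3 : ∃ x, hf Q x z ≠ 0 := by
        by_contra hcon
        push Not at hcon
        exact h (hf_nd hQ hcon)
      obtain ⟨x, hx⟩ := h3
      refine char_sum (fun x : V F => ts (hf Q x z)) (fun x x' => ?_) ?_
      · rw [hf_add_left hQ, ts_add]
      · obtain ⟨t, ht⟩ := ts_nd hx
        refine ⟨(t ^ Q) • x, ?_⟩
        rw [hf_smul_left, pow_QQ hQ]
        exact ht
  have h3 : ∑ x : V F, ∑ z : U, ts (hf Q x z) = ∑ z : U, ∑ x : V F, ts (hf Q x z) := sum_comm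
  simp only [h1, h2] at h3
  rw [← sum_filter, sum_const, nsmul_eq_mul] at h3
  have h4 : ∑ z : U, (if (z : V F) = 0 then (Fintype.card F : ℝ) ^ 4 else 0) =
      (Fintype.card F : ℝ) ^ 4 := by
    rw [sum_eq_single (0 : U)]
    · simp
    · intro z _ hz
      rw [if_neg]
      intro h
      exact hz (Subtype.ext h)
    · intro h
      exact absurd (mem_univ _) h
  rw [h4] at h3
  have hF : (0 : ℝ) < (Fintype.card F : ℝ) ^ 2 := by
    have : (0 : ℝ) < Fintype.card F := by exact_mod_cast Fintype.card_pos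
    positivity
  have h5 : (((univ.filter fun x : V F => ∀ z ∈ U, hf Q x z = 0).card : ℕ) : ℝ) =
      (Fintype.card F : ℝ) ^ 2 := by
    apply mul_right_cancel₀ hF.ne'
    rw [h3]
    ring
  exact_mod_cast h5

end basics

section phase

variable {F : Type} [Field F] [Fintype F] [Algebra F2 F] {J : Type} [Fintype J] [LinearOrder J]

/-- the phase -/
noncomputable def Ph (Q : ℕ) (S : Finset J) (B : J → J → F) (dd : J → F) (a c : J → F2)
    (z : J → V F) : F :=
  ∑ i, qf Q (dd i) (a i) (c i) (z i) +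
          ∑ i, ∑ j, if i < j ∧ (i ∈ S ∨ j ∈ S) then B i j * hf Q (z i) (z j) else 0

theorem ts_ite (p : Prop) [Decidable p] (x : F) :
    ts (if p then x else 0) = if p then ts x else 1 := by
  split_ifs
  · rfl
  · exact ts_zero

theorem ts_Ph (Q : ℕ) (S : Finset J) (B : J → J → F) (dd : J → F) (a c : J → F2)
    (z : J → V F) : ts (Ph Q S B dd a c z) =
      (∏ i, ts (qf Q (dd i) (a i) (c i) (z i))) *
        ∏ i, ∏ j, if i < j ∧ (i ∈ S ∨ j ∈ S) then ts (B i j * hf Q (z i) (z j)) else 1 := by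
  unfold Ph
  rw [ts_add, ts_sum, ts_sum]
  congr 1
  refine prod_congr rfl fun i _ => ?_
  rw [ts_sum]
  refine prod_congr rfl fun j _ => ?_
  rw [ts_ite]

theorem prod_split (S : Finset J) (e : J → J → ℝ) (he : ∀ i j, e i j = e j i) :
    (∏ i, ∏ j, if i < j ∧ (i ∈ S ∨ j ∈ S) then e i j else 1) =
      (∏ i, ∏ j, if i < j ∧ i ∈ S ∧ j ∈ S then e i j else 1) *
        ∏ j, ∏ i, if i ∈ S ∧ j ∉ S then e i j else 1 := by
  have h1 : (∏ i, ∏ j, if i < j ∧ (i ∈ S ∨ j ∈ S) then e i j else 1) =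
      (∏ i, ∏ j, if i < j ∧ i ∈ S ∧ j ∈ S then e i j else 1) *
        ((∏ i, ∏ j, if i < j ∧ i ∈ S ∧ j ∉ S then e i j else 1) *
          ∏ i, ∏ j, if i < j ∧ i ∉ S ∧ j ∈ S then e i j else 1) := by
    simp only [← prod_mul_distrib]
    refine prod_congr rfl fun i _ => prod_congr rfl fun j _ => ?_
    by_cases h1 : i < j <;> by_cases h2 : i ∈ S <;> by_cases h3 : j ∈ S <;> simp [h1, h2, h3]
  have h2 : (∏ i, ∏ j, if i < j ∧ i ∉ S ∧ j ∈ S then e i j else 1) =
      ∏ i, ∏ j, if j < i ∧ i ∈ S ∧ j ∉ S then e i j else 1 := by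
    rw [prod_comm]
    refine prod_congr rfl fun i _ => prod_congr rfl fun j _ => ?_
    rw [he j i]
    by_cases h1 : j < i <;> by_cases h2 : i ∈ S <;> by_cases h3 : j ∈ S <;> simp [h1, h2, h3]
  have h3 : (∏ i, ∏ j, if i < j ∧ i ∈ S ∧ j ∉ S then e i j else 1) *
      (∏ i, ∏ j, if j < i ∧ i ∈ S ∧ j ∉ S then e i j else 1) =
      ∏ j, ∏ i, if i ∈ S ∧ j ∉ S then e i j else 1 := by
    rw [prod_comm (f := fun j i => if i ∈ S ∧ j ∉ S then e i j else 1)]
    simp only [← prod_mul_distrib]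
    refine prod_congr rfl fun i _ => prod_congr rfl fun j _ => ?_
    rcases lt_trichotomy i j with h1 | h1 | h1
    · have h4 : ¬ j < i := not_lt.2 h1.le
      by_cases h2 : i ∈ S <;> by_cases h3 : j ∈ S <;> simp [h1, h2, h3, h4]
    · subst h1
      by_cases h2 : i ∈ S <;> simp [h2]
    · have h4 : ¬ i < j := not_lt.2 h1.le
      by_cases h2 : i ∈ S <;> by_cases h3 : j ∈ S <;> simp [h1, h2, h3, h4]
  rw [h1, h2, h3]

theorem ee_symm {Q : ℕ} (hQ : Fintype.card F = Q ^ 2) {B : J → J → F}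
    (hB : ∀ i j, B j i = B i j ^ Q) (z : J → V F) (i j : J) :
    ts (B i j * hf Q (z i) (z j)) = ts (B j i * hf Q (z j) (z i)) := by
  rw [← ts_Q hQ, mul_pow, hf_conj hQ, ← hB i j]

/-- the part of `S` -/
noncomputable def AA (Q : ℕ) (S : Finset J) (B : J → J → F) (dd : J → F) (a c : J → F2)
    (y : J → V F) : ℝ :=
  (∏ i, if i ∈ S then ts (qf Q (dd i) (a i) (c i) (y i)) else 1) *
    ∏ i, ∏ j, if i < j ∧ i ∈ S ∧ j ∈ S then ts (B i j * hf Q (y i) (y j)) else 1

theorem abs_AA (Q : ℕ) (S : Finset J) (B : J → J → F) (dd : J → F) (a c : J → F2)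
    (y : J → V F) : |AA Q S B dd a c y| = 1 := by
  unfold AA
  rw [abs_mul, abs_prod, abs_prod]
  have h1 : ∀ (p : Prop) [Decidable p] (x : F), |if p then ts x else 1| = 1 := by
    intro p _ x
    split_ifs
    · exact abs_ts x
    · exact abs_one
  simp only [abs_prod, h1, prod_const_one, mul_one]

/-- the vector of the linear part -/
noncomputable def ZZ (B : J → J → F) (y : J → V F) (j : J) : V F := ∑ i, B j i • y i

theorem hf_ZZ {Q : ℕ} (hQ : Fintype.card F = Q ^ 2) {B : J → J → F}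
    (hB : ∀ i j, B j i = B i j ^ Q) (y : J → V F) (j : J) (v : V F) :
    hf Q (ZZ B y j) v = ∑ i, B i j * hf Q (y i) v := by
  unfold ZZ
  rw [hf_sum_left hQ]
  refine sum_congr rfl fun i _ => ?_
  rw [hf_smul_left, ← hB j i]

/-- the local factor -/
noncomputable def gg (Q : ℕ) (S : Finset J) (B : J → J → F) (dd : J → F) (a c : J → F2)
    (y : J → V F) (j : J) (v : V F) : ℝ :=
  if j ∈ S then 1 else ts (qf Q (dd j) (a j) (c j) v + hf Q (ZZ B y j) v)

theorem ts_Ph_eq {Q : ℕ} (hQ : Fintype.card F = Q ^ 2) {B : J → J → F}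
    (hB : ∀ i j, B j i = B i j ^ Q) (S : Finset J) (dd : J → F) (a c : J → F2)
    {y z : J → V F} (hy : ∀ i, i ∉ S → y i = 0) (hz : ∀ i ∈ S, z i = y i) :
    ts (Ph Q S B dd a c z) = AA Q S B dd a c y * ∏ j, gg Q S B dd a c y j (z j) := by
  rw [ts_Ph, prod_split S (fun i j => ts (B i j * hf Q (z i) (z j)))
    (fun i j => ee_symm hQ hB z i j)]
  unfold AA
  have h1 : ∏ i, ts (qf Q (dd i) (a i) (c i) (z i)) =
      (∏ i, if i ∈ S then ts (qf Q (dd i) (a i) (c i) (y i)) else 1) *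
        ∏ i, if i ∈ S then 1 else ts (qf Q (dd i) (a i) (c i) (z i)) := by
    rw [← prod_mul_distrib]
    refine prod_congr rfl fun i _ => ?_
    by_cases hi : i ∈ S
    · rw [if_pos hi, if_pos hi, mul_one, hz i hi]
    · rw [if_neg hi, if_neg hi, one_mul]
  have h2 : (∏ i, ∏ j, if i < j ∧ i ∈ S ∧ j ∈ S then ts (B i j * hf Q (z i) (z j)) else 1) =
      ∏ i, ∏ j, if i < j ∧ i ∈ S ∧ j ∈ S then ts (B i j * hf Q (y i) (y j)) else 1 := by
    refine prod_congr rfl fun i _ => prod_congr rfl fun j _ => ?_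
    by_cases h : i < j ∧ i ∈ S ∧ j ∈ S
    · rw [if_pos h, if_pos h, hz i h.2.1, hz j h.2.2]
    · rw [if_neg h, if_neg h]
  have h3 : (∏ i, if i ∈ S then 1 else ts (qf Q (dd i) (a i) (c i) (z i))) *
      (∏ j, ∏ i, if i ∈ S ∧ j ∉ S then ts (B i j * hf Q (z i) (z j)) else 1) =
      ∏ j, gg Q S B dd a c y j (z j) := by
    rw [← prod_mul_distrib]
    refine prod_congr rfl fun j _ => ?_
    unfold gg
    by_cases hj : j ∈ S
    · simp [hj]
    · rw [if_neg hj, if_neg hj, ts_add, hf_ZZ hQ hB, ts_sum]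
      congr 1
      refine prod_congr rfl fun i _ => ?_
      by_cases hi : i ∈ S
      · rw [if_pos ⟨hi, hj⟩, hz i hi]
      · rw [if_neg (fun h => hi h.1), hy i hi, hf_zero_left hQ, mul_zero, ts_zero]
  rw [h1, h2, ← h3]
  ring

/-- the restriction to `S` -/
noncomputable def rS (S : Finset J) (z : J → V F) (i : J) : V F := if i ∈ S then z i else 0

/-- the absolute value of the local sum -/
noncomputable def fac (Q : ℕ) (B : J → J → F) (dd : J → F) (a c : J → F2) (U : Submodule F (V F))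
    (y : J → V F) (j : J) : ℝ :=
  |∑ v ∈ (univ : Finset (V F)).filter (· ∈ U), ts (qf Q (dd j) (a j) (c j) v + hf Q (ZZ B y j) v)|

/-- the part of a maximal isotropic subspace -/
theorem TU_le {Q : ℕ} (hQ : Fintype.card F = Q ^ 2) {B : J → J → F}
    (hB : ∀ i j, B j i = B i j ^ Q) (S : Finset J) (dd : J → F) (a c : J → F2)
    (U : Submodule F (V F)) :
    |∑ z ∈ univ.filter (fun z : J → V F => ∀ i, i ∉ S → z i ∈ U), ts (Ph Q S B dd a c z)| ≤
      ∑ y ∈ univ.filter (fun y : J → V F => ∀ i, i ∉ S → y i = 0),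
        ∏ j, if j ∈ S then 1 else fac Q B dd a c U y j := by
  have hmaps : ∀ z ∈ univ.filter (fun z : J → V F => ∀ i, i ∉ S → z i ∈ U),
      rS S z ∈ univ.filter (fun y : J → V F => ∀ i, i ∉ S → y i = 0) := by
    intro z _
    rw [mem_filter]
    refine ⟨mem_univ _, fun i hi => ?_⟩
    unfold rS
    rw [if_neg hi]
  rw [← sum_fiberwise_of_maps_to hmaps]
  refine (abs_sum_le_sum_abs _ _).trans (sum_le_sum fun y hy => le_of_eq ?_)
  rw [mem_filter] at hy
  have h1 : ((univ.filter (fun z : J → V F => ∀ i, i ∉ S → z i ∈ U)).filter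
      fun z => rS S z = y) =
      Fintype.piFinset (fun i => if i ∈ S then {y i} else (univ : Finset (V F)).filter (· ∈ U)) := by
    ext z
    rw [mem_filter, mem_filter, Fintype.mem_piFinset]
    constructor
    · rintro ⟨⟨_, h1⟩, h2⟩ i
      by_cases hi : i ∈ S
      · rw [if_pos hi, mem_singleton, ← h2]
        unfold rS
        rw [if_pos hi]
      · rw [if_neg hi, mem_filter]
        exact ⟨mem_univ _, h1 i hi⟩
    · intro h
      refine ⟨⟨mem_univ _, fun i hi => ?_⟩, ?_⟩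
      · have := h i
        rw [if_neg hi, mem_filter] at this
        exact this.2
      · funext i
        unfold rS
        by_cases hi : i ∈ S
        · have := h i
          rw [if_pos hi, mem_singleton] at this
          rw [if_pos hi, this]
        · rw [if_neg hi, hy.2 i hi]
  rw [h1]
  have h2 : ∀ z ∈ Fintype.piFinset (fun i => if i ∈ S then {y i} else
      (univ : Finset (V F)).filter (· ∈ U)), ts (Ph Q S B dd a c z) =
      AA Q S B dd a c y * ∏ j, gg Q S B dd a c y j (z j) := by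
    intro z hz
    refine ts_Ph_eq hQ hB S dd a c hy.2 fun i hi => ?_
    rw [Fintype.mem_piFinset] at hz
    have := hz i
    rw [if_pos hi, mem_singleton] at this
    exact this
  rw [sum_congr rfl h2, ← mul_sum, abs_mul, abs_AA, one_mul, ← prod_univ_sum, abs_prod]
  refine prod_congr rfl fun j _ => ?_
  unfold gg fac
  by_cases hj : j ∈ S
  · simp only [if_pos hj, sum_singleton, abs_one]
  · simp only [if_neg hj]

/-- maximal isotropic -/
def MI (Q : ℕ) (U : Submodule F (V F)) : Prop :=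
  Nat.card U = Fintype.card F ^ 2 ∧ ∀ z ∈ U, ∀ z' ∈ U, hf Q z z' = 0

theorem card_filter_mem (U : Submodule F (V F)) :
    ((univ : Finset (V F)).filter (· ∈ U)).card = Nat.card U := by
  rw [Nat.card_eq_fintype_card, Fintype.card_subtype]

theorem fac_le (Q : ℕ) (B : J → J → F) (dd : J → F) (a c : J → F2) {U : Submodule F (V F)}
    (hU : Nat.card U = Fintype.card F ^ 2) (y : J → V F) (j : J) :
    fac Q B dd a c U y j ≤ (Fintype.card F : ℝ) ^ 2 := by
  unfold fac
  refine (abs_sum_le_sum_abs _ _).trans (le_of_eq ?_)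
  simp only [abs_ts]
  rw [sum_const, card_filter_mem, hU]
  simp

theorem card_V : Fintype.card (V F) = Fintype.card F ^ 4 := by
  simp only [V, Fintype.card_prod]
  ring

/-- the number of the families with arbitrary entries in `S` and `0` outside -/
theorem card_Y (S : Finset J) :
    (univ.filter (fun y : J → V F => ∀ i, i ∉ S → y i = 0)).card = Fintype.card F ^ (4 * S.card) := by
  have h1 : (univ.filter (fun y : J → V F => ∀ i, i ∉ S → y i = 0)) =
      Fintype.piFinset fun i => if i ∈ S then (univ : Finset (V F)) else {0} := by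
    ext y
    rw [mem_filter, Fintype.mem_piFinset]
    constructor
    · rintro ⟨_, h⟩ i
      by_cases hi : i ∈ S
      · rw [if_pos hi]
        exact mem_univ _
      · rw [if_neg hi, mem_singleton]
        exact h i hi
    · intro h
      refine ⟨mem_univ _, fun i hi => ?_⟩
      have := h i
      rw [if_neg hi, mem_singleton] at this
      exact this
  rw [h1, Fintype.card_piFinset]
  have h2 : ∀ i, (if i ∈ S then (univ : Finset (V F)) else {0}).card =
      if i ∈ S then Fintype.card F ^ 4 else 1 := by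
    intro i
    by_cases hi : i ∈ S
    · rw [if_pos hi, if_pos hi, card_univ, card_V]
    · rw [if_neg hi, if_neg hi, card_singleton]
  simp only [h2]
  rw [prod_ite_mem, univ_inter, prod_const, ← pow_mul]

theorem cf_zero : (cf (0 : F2) : F) = 0 := map_zero _
theorem cf_one : (cf (1 : F2) : F) = 1 := map_one _

/-- many indices are good -/
theorem good_card (Q : ℕ) (S : Finset J) (a c : J → F2) {m : ℕ} (hG : Gen (Sᶜ : Finset J) a c m)
    {U : Submodule F (V F)} (hne : ¬ ∀ z ∈ U, ga Q z = 0 ∧ gc Q z = 0) :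
    m ≤ ((Sᶜ : Finset J).filter fun j => ∃ z ∈ U, cf (a j) * ga Q z + cf (c j) * gc Q z ≠ 0).card := by
  have h01 : ∀ z : F2, z = 0 ∨ z = 1 := by decide
  have key : ∀ P : F2 × F2, P ≠ (0, 0) → (∀ x y : F2, (x, y) ≠ (0, 0) → (x, y) ≠ P →
      ∃ z ∈ U, (cf x : F) * ga Q z + cf y * gc Q z ≠ 0) →
      m ≤ ((Sᶜ : Finset J).filter fun j =>
        ∃ z ∈ U, cf (a j) * ga Q z + cf (c j) * gc Q z ≠ 0).card := by
    intro P hP h
    refine (hG P.1 P.2 hP).trans (card_le_card fun i hi => ?_)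
    rw [mem_filter] at hi ⊢
    exact ⟨hi.1, h _ _ hi.2.1 hi.2.2⟩
  by_cases h1 : ∀ z ∈ U, ga Q z = 0
  · obtain ⟨z, hz, hz2⟩ : ∃ z ∈ U, gc Q z ≠ 0 := by
      by_contra hcon
      push Not at hcon
      exact hne fun z hz => ⟨h1 z hz, hcon z hz⟩
    refine key (1, 0) (by decide) fun x y h3 h4 => ?_
    rcases h01 x with hx | hx <;> rcases h01 y with hy | hy
    · exact absurd (by rw [hx, hy]) h3
    · refine ⟨z, hz, ?_⟩
      rw [hx, hy, cf_zero, cf_one, zero_mul, zero_add, one_mul]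
      exact hz2
    · exact absurd (by rw [hx, hy]) h4
    · refine ⟨z, hz, ?_⟩
      rw [hx, hy, cf_one, h1 z hz, one_mul, one_mul, zero_add]
      exact hz2
  · push Not at h1
    obtain ⟨z, hz, hz2⟩ := h1
    by_cases h2 : ∀ z ∈ U, gc Q z = 0
    · refine key (0, 1) (by decide) fun x y h3 h4 => ?_
      rcases h01 x with hx | hx <;> rcases h01 y with hy | hy
      · exact absurd (by rw [hx, hy]) h3
      · exact absurd (by rw [hx, hy]) h4
      · refine ⟨z, hz, ?_⟩
        rw [hx, hy, cf_zero, cf_one, zero_mul, add_zero, one_mul]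
        exact hz2
      · refine ⟨z, hz, ?_⟩
        rw [hx, hy, cf_one, h2 z hz, one_mul, one_mul, add_zero]
        exact hz2
    · push Not at h2
      obtain ⟨z', hz', hz2'⟩ := h2
      refine key (1, 1) (by decide) fun x y h3 h4 => ?_
      rcases h01 x with hx | hx <;> rcases h01 y with hy | hy
      · exact absurd (by rw [hx, hy]) h3
      · refine ⟨z', hz', ?_⟩
        rw [hx, hy, cf_zero, cf_one, zero_mul, zero_add, one_mul]
        exact hz2'
      · refine ⟨z, hz, ?_⟩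
        rw [hx, hy, cf_zero, cf_one, zero_mul, add_zero, one_mul]
        exact hz2
      · exact absurd (by rw [hx, hy]) h4

/-- the subspaces with an anisotropic form -/
theorem TU_A (h2 : S_UGAU) {Q : ℕ} (hQ : Fintype.card F = Q ^ 2) {B : J → J → F}
    (hB : ∀ i j, B j i = B i j ^ Q) (S : Finset J) {dd : J → F} (hdd : ∀ i, dd i ^ Q = dd i)
    (a c : J → F2) {m : ℕ} (hG : Gen (Sᶜ : Finset J) a c m)
    {U : Submodule F (V F)} (hU : MI Q U) (hne : ¬ ∀ z ∈ U, ga Q z = 0 ∧ gc Q z = 0) :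
    |∑ z ∈ univ.filter (fun z : J → V F => ∀ i, i ∉ S → z i ∈ U), ts (Ph Q S B dd a c z)| *
      (Q : ℝ) ^ m ≤ (Fintype.card F : ℝ) ^ (4 * S.card + 2 * Sᶜ.card) := by
  obtain ⟨Gd, hGd⟩ : ∃ Gd : Finset J, Gd = (Sᶜ : Finset J).filter fun j =>
      ∃ z ∈ U, cf (a j) * ga Q z + cf (c j) * gc Q z ≠ 0 := ⟨_, rfl⟩
  have hm := good_card Q S a c hG hne
  rw [← hGd] at hm
  have hsub : Gd ⊆ Sᶜ := by rw [hGd]; exact filter_subset _ _
  have hQ2 := Q_two hQ
  have hQ1 : (1 : ℝ) ≤ Q := by exact_mod_cast (by omega : 1 ≤ Q)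
  have hQ0 : (0 : ℝ) < Q := by linarith
  have hq0 : (0 : ℝ) < Fintype.card F := by exact_mod_cast Fintype.card_pos
  have key : ∀ y : J → V F, (∏ j, if j ∈ S then 1 else fac Q B dd a c U y j) * (Q : ℝ) ^ m ≤
      (Fintype.card F : ℝ) ^ (2 * Sᶜ.card) := by
    intro y
    have e1 : (∏ j, if j ∈ S then 1 else fac Q B dd a c U y j) * (Q : ℝ) ^ Gd.card ≤
        (Fintype.card F : ℝ) ^ (2 * Sᶜ.card) := by
      have f1 : (Q : ℝ) ^ Gd.card = ∏ j : J, if j ∈ Gd then (Q : ℝ) else 1 := by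
        rw [prod_ite_mem, univ_inter, prod_const]
      have f2 : (Fintype.card F : ℝ) ^ (2 * Sᶜ.card) =
          ∏ j : J, if j ∈ Sᶜ then (Fintype.card F : ℝ) ^ 2 else 1 := by
        rw [prod_ite_mem, univ_inter, prod_const, ← pow_mul]
      rw [f1, f2, ← prod_mul_distrib]
      refine Finset.prod_le_prod (fun j _ => ?_) fun j _ => ?_
      · refine mul_nonneg ?_ ?_
        · split_ifs
          · exact zero_le_one
          · exact abs_nonneg _
        · split_ifs
          · exact hQ0.le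
          · exact zero_le_one
      · by_cases hj : j ∈ S
        · have hj1 : j ∉ Gd := fun h => (mem_compl.1 (hsub h)) hj
          have hj2 : j ∉ Sᶜ := fun h => (mem_compl.1 h) hj
          rw [if_pos hj, if_neg hj1, if_neg hj2, one_mul]
        · rw [if_neg hj, if_pos (mem_compl.2 hj)]
          by_cases hg : j ∈ Gd
          · rw [if_pos hg]
            rw [hGd, mem_filter] at hg
            have g1 := (h2 F Q hQ U hU.1 hU.2 (dd j) (a j) (c j) (hdd j)).2 hg.2 (ZZ B y j)
            rw [le_div_iff₀ hQ0] at g1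
            exact g1
          · rw [if_neg hg, mul_one]
            exact fac_le Q B dd a c hU.1 y j
    refine le_trans (mul_le_mul_of_nonneg_left (pow_le_pow_right₀ hQ1 hm) ?_) e1
    refine prod_nonneg fun j _ => ?_
    split_ifs
    · exact zero_le_one
    · exact abs_nonneg _
  refine (mul_le_mul_of_nonneg_right (TU_le hQ hB S dd a c U) (by positivity)).trans ?_
  rw [sum_mul]
  refine (sum_le_card_nsmul _ _ _ fun y _ => key y).trans (le_of_eq ?_)
  rw [card_Y, nsmul_eq_mul, pow_add]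
  push_cast
  rfl

/-- the subspaces which are isotropic for all the forms -/
theorem TU_B (h2 : S_UGAU) {Q : ℕ} (hQ : Fintype.card F = Q ^ 2) {B : J → J → F}
    (hB : ∀ i j, B j i = B i j ^ Q) (S : Finset J) {dd : J → F} (hdd : ∀ i, dd i ^ Q = dd i)
    (a c : J → F2)
    (inj : ∀ v : J → F, (∀ i, i ∉ S → v i = 0) → (∀ j, j ∉ S → ∑ i, v i * B i j = 0) → v = 0)
    {U : Submodule F (V F)} (hU : MI Q U) (hz : ∀ z ∈ U, ga Q z = 0 ∧ gc Q z = 0) :
    |∑ z ∈ univ.filter (fun z : J → V F => ∀ i, i ∉ S → z i ∈ U), ts (Ph Q S B dd a c z)| ≤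
      (Fintype.card F : ℝ) ^ (2 * S.card + 2 * Sᶜ.card) := by
  refine (TU_le hQ hB S dd a c U).trans ?_
  have hq0 : (0 : ℝ) < Fintype.card F := by exact_mod_cast Fintype.card_pos
  obtain ⟨P, hP⟩ : ∃ P : Finset (V F), P = univ.filter fun x : V F => ∀ z ∈ U, hf Q x z = 0 :=
    ⟨_, rfl⟩
  have hPc : P.card = Fintype.card F ^ 2 := by
    rw [hP]
    exact card_perp hQ U hU.1
  have hfac : ∀ (y : J → V F) (j : J), (¬ ∀ v ∈ U, hf Q (ZZ B y j) v = 0) →
      fac Q B dd a c U y j = 0 := by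
    intro y j h
    push Not at h
    obtain ⟨v, hv, hv0⟩ := h
    have e1 : ∀ v ∈ U, ts (qf Q (dd j) (a j) (c j) v) = 1 :=
      (h2 F Q hQ U hU.1 hU.2 (dd j) (a j) (c j) (hdd j)).1 fun z hzU => by
        rw [(hz z hzU).1, (hz z hzU).2, mul_zero, mul_zero, add_zero]
    have e2 : ∑ v ∈ (univ : Finset (V F)).filter (· ∈ U),
        ts (qf Q (dd j) (a j) (c j) v + hf Q (ZZ B y j) v) = ∑ v : U, ts (hf Q (ZZ B y j) v) := by
      rw [sum_subtype (p := fun v => v ∈ U) _ (fun v => by simp)]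
      refine sum_congr rfl fun v _ => ?_
      rw [ts_add, e1 v v.2, one_mul]
    unfold fac
    rw [e2, abs_eq_zero]
    refine char_sum (fun v : U => ts (hf Q (ZZ B y j) v)) (fun z z' => ?_) ?_
    · rw [Submodule.coe_add, hf_add_right, ts_add]
    · obtain ⟨t, ht⟩ := ts_nd hv0
      refine ⟨t • ⟨v, hv⟩, ?_⟩
      rw [Submodule.coe_smul, hf_smul_right]
      exact ht
  have key : ∀ y ∈ univ.filter (fun y : J → V F => ∀ i, i ∉ S → y i = 0),
      (∏ j, if j ∈ S then 1 else fac Q B dd a c U y j) ≤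
      if (∀ κ ∈ S, y κ ∈ P) then (Fintype.card F : ℝ) ^ (2 * Sᶜ.card) else 0 := by
    intro y hy
    rw [mem_filter] at hy
    by_cases h : ∀ κ ∈ S, y κ ∈ P
    · rw [if_pos h]
      have f2 : (Fintype.card F : ℝ) ^ (2 * Sᶜ.card) =
          ∏ j : J, if j ∈ Sᶜ then (Fintype.card F : ℝ) ^ 2 else 1 := by
        rw [prod_ite_mem, univ_inter, prod_const, ← pow_mul]
      rw [f2]
      refine Finset.prod_le_prod (fun j _ => ?_) fun j _ => ?_
      · split_ifs
        · exact zero_le_one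
        · exact abs_nonneg _
      · by_cases hj : j ∈ S
        · have hj2 : j ∉ Sᶜ := fun h => (mem_compl.1 h) hj
          rw [if_pos hj, if_neg hj2]
        · rw [if_neg hj, if_pos (mem_compl.2 hj)]
          exact fac_le Q B dd a c hU.1 y j
    · rw [if_neg h]
      apply le_of_eq
      by_contra hne
      rw [← Ne, prod_ne_zero_iff] at hne
      refine h fun κ hκ => ?_
      rw [hP, mem_filter]
      refine ⟨mem_univ _, fun v hv => ?_⟩
      have g1 := inj (fun i => hf Q (y i) v) (fun i hi => by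
        rw [hy.2 i hi, hf_zero_left hQ]) (by
        intro j hj
        have g2 := hne j (mem_univ _)
        rw [if_neg hj] at g2
        by_contra g3
        refine g2 (hfac y j fun g4 => g3 ?_)
        have g5 := g4 v hv
        rw [hf_ZZ hQ hB] at g5
        refine Eq.trans (sum_congr rfl fun i _ => mul_comm _ _) g5)
      exact congrFun g1 κ
  refine (sum_le_sum key).trans ?_
  rw [← sum_filter, sum_const, nsmul_eq_mul]
  have hcount : ((univ.filter (fun y : J → V F => ∀ i, i ∉ S → y i = 0)).filter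
      fun y => ∀ κ ∈ S, y κ ∈ P).card ≤ Fintype.card F ^ (2 * S.card) := by
    have f1 : ((univ.filter (fun y : J → V F => ∀ i, i ∉ S → y i = 0)).filter
        fun y => ∀ κ ∈ S, y κ ∈ P) ⊆ Fintype.piFinset fun i => if i ∈ S then P else {0} := by
      intro y hy
      rw [mem_filter, mem_filter] at hy
      rw [Fintype.mem_piFinset]
      intro i
      by_cases hi : i ∈ S
      · rw [if_pos hi]
        exact hy.2 i hi
      · rw [if_neg hi, mem_singleton]
        exact hy.1.2 i hi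
    refine (card_le_card f1).trans (le_of_eq ?_)
    rw [Fintype.card_piFinset]
    have f2 : ∀ i, (if i ∈ S then P else {0}).card = if i ∈ S then Fintype.card F ^ 2 else 1 := by
      intro i
      by_cases hi : i ∈ S
      · rw [if_pos hi, if_pos hi, hPc]
      · rw [if_neg hi, if_neg hi, card_singleton]
    simp only [f2]
    rw [prod_ite_mem, univ_inter, prod_const, ← pow_mul]
  rw [pow_add]
  refine mul_le_mul_of_nonneg_right ?_ (by positivity)
  exact_mod_cast hcount

/-- the span of the vectors outside `S` -/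
def WW (S : Finset J) (z : J → V F) : Submodule F (V F) :=
  Submodule.span F (Set.range fun i : (Sᶜ : Finset J) => z i)

theorem mem_WW (S : Finset J) (z : J → V F) {i : J} (hi : i ∉ S) : z i ∈ WW S z :=
  Submodule.subset_span ⟨⟨i, mem_compl.2 hi⟩, rfl⟩

theorem WW_le (S : Finset J) (z : J → V F) {U : Submodule F (V F)} (h : ∀ i, i ∉ S → z i ∈ U) :
    WW S z ≤ U := by
  unfold WW
  rw [Submodule.span_le]
  rintro x ⟨i, rfl⟩
  exact h i (mem_compl.1 i.2)

theorem mem_univ_any {X : Type} (i : Fintype X) (x : X) : x ∈ @Finset.univ X i :=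
  @Finset.mem_univ X i x

/-- the families of the first kind -/
theorem count_one (h4 : S_URST) {Q : ℕ} (hQ : Fintype.card F = Q ^ 2) (S : Finset J) :
    ((univ : Finset (J → V F)).filter (fun z =>
      (∀ i j, i < j → i ∉ S → j ∉ S → hf Q (z i) (z j) = 0) ∧ ¬ MI Q (WW S z))).card ≤
    (Sᶜ.card + 1) ^ 4 * Fintype.card F ^ (20 + Sᶜ.card + 4 * S.card) := by
  obtain ⟨K, hK⟩ : ∃ K : Finset ((Sᶜ : Finset J) → V F), K =
      (univ.filter fun z => (∀ i j, i ≠ j → hf Q (z i) (z j) = 0) ∧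
    ¬ (Nat.card (Submodule.span F (Set.range z)) = Fintype.card F ^ 2 ∧
      ∀ z₁ ∈ Submodule.span F (Set.range z), ∀ z₂ ∈ Submodule.span F (Set.range z),
        hf Q z₁ z₂ = 0)) := ⟨_, rfl⟩
  have hQ2 := Q_two hQ
  have hKc : K.card ≤ (Sᶜ.card + 1) ^ 4 * Fintype.card F ^ (20 + Sᶜ.card) := by
    rw [hK]
    have := h4 F Q hQ (Sᶜ : Finset J)
    rw [Fintype.card_coe] at this
    refine le_trans (card_le_card fun z hz => ?_) this
    simp only [mem_filter] at hz ⊢
    exact ⟨mem_univ_any _ _, hz.2⟩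
  have h1 : ((univ : Finset (J → V F)).filter (fun z =>
      (∀ i j, i < j → i ∉ S → j ∉ S → hf Q (z i) (z j) = 0) ∧ ¬ MI Q (WW S z))).card ≤
      (K ×ˢ (univ : Finset (S → V F))).card := by
    refine card_le_card_of_injOn (fun z => (fun i => z i, fun i => z i)) ?_ ?_
    · intro z hz
      rw [mem_coe, mem_filter] at hz
      rw [mem_coe, mem_product]
      refine ⟨?_, mem_univ _⟩
      rw [hK, mem_filter]
      refine ⟨mem_univ _, fun i j hij => ?_, hz.2.2⟩
      have hij' : (i : J) ≠ j := fun h => hij (Subtype.ext h)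
      rcases lt_or_gt_of_ne hij' with h | h
      · exact hz.2.1 i j h (mem_compl.1 i.2) (mem_compl.1 j.2)
      · have e1 := hz.2.1 j i h (mem_compl.1 j.2) (mem_compl.1 i.2)
        show hf Q (z i) (z j) = 0
        rw [← hf_conj hQ, e1, zero_pow]
        omega
    · intro z _ z' _ h
      have e1 := congrArg Prod.fst h
      have e2 := congrArg Prod.snd h
      funext i
      by_cases hi : i ∈ S
      · exact congrFun e2 ⟨i, hi⟩
      · exact congrFun e1 ⟨i, mem_compl.2 hi⟩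
  refine h1.trans ?_
  rw [card_product, card_univ, Fintype.card_fun, card_V, Fintype.card_coe, ← pow_mul]
  refine (Nat.mul_le_mul_right _ hKc).trans (le_of_eq ?_)
  rw [pow_add _ (20 + Sᶜ.card)]
  ring

theorem card_mod (W : Type) [AddCommGroup W] [Module F W] [Finite W] :
    Nat.card W = Fintype.card F ^ Module.finrank F W := by
  have := Fintype.ofFinite W
  rw [Nat.card_eq_fintype_card]
  exact Module.card_eq_pow_finrank

theorem finrank_MI {Q : ℕ} {U : Submodule F (V F)} (hU : MI Q U) : Module.finrank F U = 2 := by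
  have h1 := hU.1
  rw [card_mod (F := F) U] at h1
  exact Nat.pow_right_injective (Fintype.one_lt_card (α := F)) h1

/-- the families of the second kind -/
theorem count_two {Q : ℕ} (S : Finset J) {U : Submodule F (V F)} (hU : MI Q U) :
    ((univ : Finset (J → V F)).filter (fun z => (∀ i, i ∉ S → z i ∈ U) ∧ WW S z ≠ U)).card ≤
    Fintype.card F ^ (4 + Sᶜ.card + 4 * S.card) := by
  have h1 : ((univ : Finset (J → V F)).filter (fun z => (∀ i, i ∉ S → z i ∈ U) ∧ WW S z ≠ U)) ⊆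
      (univ : Finset (V F)).biUnion fun v =>
        Fintype.piFinset fun i => if i ∈ Sᶜ then univ.image (fun t : F => t • v) else univ := by
    intro z hz
    rw [mem_filter] at hz
    rw [mem_biUnion]
    have e1 : WW S z < U := lt_of_le_of_ne (WW_le S z hz.2.1) hz.2.2
    have e2 := Submodule.finrank_lt_finrank_of_lt e1
    rw [finrank_MI hU] at e2
    have e3 : Module.finrank F (WW S z) ≤ 1 := by omega
    obtain ⟨v, hv⟩ := finrank_le_one_iff.1 e3
    refine ⟨v, mem_univ _, ?_⟩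
    rw [Fintype.mem_piFinset]
    intro i
    by_cases hi : i ∈ Sᶜ
    · rw [if_pos hi, mem_image]
      obtain ⟨t, ht⟩ := hv ⟨z i, mem_WW S z (mem_compl.1 hi)⟩
      exact ⟨t, mem_univ _, congrArg Subtype.val ht⟩
    · rw [if_neg hi]
      exact mem_univ _
  refine (card_le_card h1).trans (card_biUnion_le.trans ?_)
  have h2 : ∀ v : V F, (Fintype.piFinset fun i : J => if i ∈ Sᶜ then
      univ.image (fun t : F => t • v) else (univ : Finset (V F))).card ≤
      Fintype.card F ^ (Sᶜ.card + 4 * S.card) := by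
    intro v
    rw [Fintype.card_piFinset]
    have e2 : ∏ j : J, (if j ∈ Sᶜ then univ.image (fun t : F => t • v) else univ :
        Finset (V F)).card ≤ ∏ j : J, if j ∈ Sᶜ then Fintype.card F else Fintype.card F ^ 4 := by
      refine Finset.prod_le_prod (fun _ _ => Nat.zero_le _) fun j _ => ?_
      by_cases hj : j ∈ Sᶜ
      · rw [if_pos hj, if_pos hj]
        exact card_image_le
      · rw [if_neg hj, if_neg hj, card_univ, card_V]
    refine e2.trans (le_of_eq ?_)
    rw [prod_ite, prod_const, prod_const, ← pow_mul, ← pow_add]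
    have e3 : (univ.filter fun j => j ∈ Sᶜ) = Sᶜ := by
      ext j
      simp
    have e4 : (univ.filter fun j => ¬ j ∈ Sᶜ) = S := by
      ext j
      simp
    rw [e3, e4]
  refine (sum_le_sum fun v _ => h2 v).trans (le_of_eq ?_)
  rw [sum_const, card_univ, card_V, smul_eq_mul, ← pow_add]
  congr 1
  ring

/-- the number of the maximal isotropic subspaces -/
theorem exists_UU (Q : ℕ) : ∃ UU : Finset (Submodule F (V F)), (∀ U, U ∈ UU ↔ MI Q U) ∧
    UU.card ≤ Fintype.card F ^ 8 := by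
  refine ⟨((univ : Finset (V F × V F)).image fun p => Submodule.span F {p.1, p.2}).filter
    (MI Q), fun U => ?_, ?_⟩
  · rw [mem_filter, mem_image]
    constructor
    · exact fun h => h.2
    · intro h
      refine ⟨?_, h⟩
      have b := Module.finBasisOfFinrankEq F U (finrank_MI h)
      refine ⟨((b 0 : V F), (b 1 : V F)), mem_univ _, ?_⟩
      have h1 := b.span_eq
      have h2 : Set.range b = {b 0, b 1} := by
        ext x
        constructor
        · rintro ⟨i, rfl⟩
          fin_cases i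
          · exact Or.inl rfl
          · exact Or.inr rfl
        · rintro (h | h)
          · exact ⟨0, h.symm⟩
          · exact ⟨1, h.symm⟩
      rw [h2] at h1
      have h3 := congrArg (Submodule.map U.subtype) h1
      rw [Submodule.map_span, Submodule.map_top, Submodule.range_subtype, Set.image_pair] at h3
      exact h3
  · refine (card_filter_le _ _).trans (card_image_le.trans (le_of_eq ?_))
    rw [card_univ, Fintype.card_prod, card_V, ← pow_add]

theorem num_four (l : ℕ) : (l + 1) ^ 4 ≤ 2 ^ (l + 8) := by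
  have h1 : l / 4 + 1 ≤ 2 ^ (l / 4) := Nat.lt_two_pow_self
  have h2 : l + 1 ≤ 4 * 2 ^ (l / 4) := by omega
  calc (l + 1) ^ 4 ≤ (4 * 2 ^ (l / 4)) ^ 4 := Nat.pow_le_pow_left h2 4
    _ = 2 ^ (8 + (l / 4) * 4) := by
        rw [mul_pow, ← pow_mul, pow_add]
        norm_num
    _ ≤ _ := Nat.pow_le_pow_right (by norm_num) (by omega)

theorem num_a {q l s : ℕ} (hq : 4 ≤ q) (hl : 4 * s + 64 ≤ l) :
    24 * ((l + 1) ^ 4 * q ^ (20 + l + 4 * s)) ≤ q ^ (2 * s + 2 * l) := by
  obtain ⟨k, hk⟩ : ∃ k, k + 20 + 2 * s = l := ⟨l - 20 - 2 * s, by omega⟩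
  have h1 : 24 * (l + 1) ^ 4 ≤ q ^ k := by
    calc 24 * (l + 1) ^ 4 ≤ 2 ^ 5 * 2 ^ (l + 8) := Nat.mul_le_mul (by norm_num) (num_four l)
      _ = 2 ^ (5 + (l + 8)) := (pow_add _ _ _).symm
      _ ≤ 2 ^ (2 * k) := Nat.pow_le_pow_right (by norm_num) (by omega)
      _ = 4 ^ k := by rw [pow_mul]; norm_num
      _ ≤ q ^ k := Nat.pow_le_pow_left hq k
  calc 24 * ((l + 1) ^ 4 * q ^ (20 + l + 4 * s)) = 24 * (l + 1) ^ 4 * q ^ (20 + l + 4 * s) := by ring
    _ ≤ q ^ k * q ^ (20 + l + 4 * s) := Nat.mul_le_mul_right _ h1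
    _ = q ^ (2 * s + 2 * l) := by
        rw [← pow_add]
        congr 1
        omega

theorem num_b {q l s : ℕ} (hq : 4 ≤ q) (hl : 4 * s + 64 ≤ l) :
    24 * (q ^ 8 * q ^ (4 + l + 4 * s)) ≤ q ^ (2 * s + 2 * l) := by
  have h1 : 24 ≤ q ^ 3 := (by norm_num : 24 ≤ 4 ^ 3).trans (Nat.pow_le_pow_left hq 3)
  calc 24 * (q ^ 8 * q ^ (4 + l + 4 * s)) ≤ q ^ 3 * (q ^ 8 * q ^ (4 + l + 4 * s)) :=
        Nat.mul_le_mul_right _ h1
    _ = q ^ (3 + (8 + (4 + l + 4 * s))) := by rw [← pow_add, ← pow_add]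
    _ ≤ _ := Nat.pow_le_pow_right (by omega) (by omega)

theorem num_c {q Q l s : ℕ} (hq : 4 ≤ q) (hQ : q = Q ^ 2) :
    24 * (q ^ 8 * q ^ (4 * s + 2 * l)) ≤ q ^ (2 * s + 2 * l) * Q ^ (4 * s + 64) := by
  have h1 : 24 ≤ q ^ 3 := (by norm_num : 24 ≤ 4 ^ 3).trans (Nat.pow_le_pow_left hq 3)
  have h2 : Q ^ (4 * s + 64) = q ^ (2 * s + 32) := by
    rw [hQ, ← pow_mul]
    congr 1
    ring
  rw [h2]
  calc 24 * (q ^ 8 * q ^ (4 * s + 2 * l)) ≤ q ^ 3 * (q ^ 8 * q ^ (4 * s + 2 * l)) :=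
        Nat.mul_le_mul_right _ h1
    _ = q ^ (3 + (8 + (4 * s + 2 * l))) := by rw [← pow_add, ← pow_add]
    _ ≤ q ^ (2 * s + 2 * l + (2 * s + 32)) := Nat.pow_le_pow_right (by omega) (by omega)
    _ = _ := pow_add _ _ _

theorem le_ts (x : F) : ts x ≤ 1 := (le_abs_self _).trans (abs_ts x).le

/-- the sum of the characters -/
theorem main_sum (h2 : S_UGAU) (h3 : S_UISO) (h4 : S_URST) {Q : ℕ} (hQ : Fintype.card F = Q ^ 2)
    (S : Finset J) {B : J → J → F} {dd : J → F} (a c : J → F2) (hB : ∀ i j, B j i = B i j ^ Q)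
    (hdd : ∀ i, dd i ^ Q = dd i)
    (inj : ∀ v : J → F, (∀ i, i ∉ S → v i = 0) → (∀ j, j ∉ S → ∑ i, v i * B i j = 0) → v = 0)
    (hG : Gen Sᶜ a c (4 * S.card + 64)) :
    ∑ z ∈ (univ : Finset (J → V F)).filter
        (fun z => ∀ i j, i < j → i ∉ S → j ∉ S → hf Q (z i) (z j) = 0), ts (Ph Q S B dd a c z) ≤
      (Q + 9 / 8) * (Fintype.card F : ℝ) ^ (2 * S.card + 2 * Sᶜ.card) := by
  have hQ2 := Q_two hQ
  have hq4 : 4 ≤ Fintype.card F := by
    rw [hQ]
    exact (by norm_num : 4 ≤ 2 ^ 2).trans (Nat.pow_le_pow_left hQ2 2)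
  have hl : 4 * S.card + 64 ≤ Sᶜ.card := by
    have := hG 1 0 (by decide)
    exact this.trans (card_filter_le _ _)
  obtain ⟨UU, hUU, hUUc⟩ := exists_UU (F := F) Q
  obtain ⟨ZZ0, hZZ0⟩ : ∃ ZZ0 : Finset (J → V F), ZZ0 = (univ : Finset (J → V F)).filter
        (fun z => ∀ i j, i < j → i ∉ S → j ∉ S → hf Q (z i) (z j) = 0) := ⟨_, rfl⟩
  rw [← hZZ0]
  -- the first kind
  have hX1 : ∑ z ∈ ZZ0.filter (fun z => ¬ MI Q (WW S z)), ts (Ph Q S B dd a c z) ≤
      (((Sᶜ.card + 1) ^ 4 * Fintype.card F ^ (20 + Sᶜ.card + 4 * S.card) : ℕ) : ℝ) := by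
    refine (sum_le_card_nsmul _ _ 1 fun z _ => le_ts _).trans ?_
    rw [nsmul_eq_mul, mul_one, hZZ0, filter_filter]
    exact_mod_cast count_one h4 hQ S
  -- the second kind
  have hmaps : ∀ z ∈ ZZ0.filter (fun z => MI Q (WW S z)), WW S z ∈ UU := by
    intro z hz
    rw [mem_filter] at hz
    exact (hUU _).2 hz.2
  have hU1 : ∀ U ∈ UU, ∑ z ∈ (ZZ0.filter (fun z => MI Q (WW S z))).filter (fun z => WW S z = U),
      ts (Ph Q S B dd a c z) ≤
      |∑ z ∈ univ.filter (fun z : J → V F => ∀ i, i ∉ S → z i ∈ U), ts (Ph Q S B dd a c z)| +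
        ((Fintype.card F ^ (4 + Sᶜ.card + 4 * S.card) : ℕ) : ℝ) := by
    intro U hU
    have hMI := (hUU U).1 hU
    have e1 : (ZZ0.filter (fun z => MI Q (WW S z))).filter (fun z => WW S z = U) =
        (univ.filter (fun z : J → V F => ∀ i, i ∉ S → z i ∈ U)).filter (fun z => WW S z = U) := by
      ext z
      rw [mem_filter, mem_filter, mem_filter, mem_filter, hZZ0, mem_filter]
      constructor
      · rintro ⟨_, h⟩
        exact ⟨⟨mem_univ _, fun i hi => h ▸ mem_WW S z hi⟩, h⟩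
      · rintro ⟨⟨_, h⟩, h'⟩
        exact ⟨⟨⟨mem_univ _, fun i j _ hi hj => hMI.2 _ (h i hi) _ (h j hj)⟩, h' ▸ hMI⟩, h'⟩
    rw [e1]
    have e2 := sum_filter_add_sum_filter_not
      (univ.filter (fun z : J → V F => ∀ i, i ∉ S → z i ∈ U)) (fun z => WW S z = U)
      (fun z => ts (Ph Q S B dd a c z))
    have e3 : |∑ z ∈ (univ.filter (fun z : J → V F => ∀ i, i ∉ S → z i ∈ U)).filter
        (fun z => ¬ WW S z = U), ts (Ph Q S B dd a c z)| ≤
        ((Fintype.card F ^ (4 + Sᶜ.card + 4 * S.card) : ℕ) : ℝ) := by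
      refine (abs_sum_le_sum_abs _ _).trans ?_
      simp only [abs_ts]
      rw [sum_const, nsmul_eq_mul, mul_one, filter_filter]
      exact_mod_cast count_two S hMI
    have e4 := neg_abs_le (∑ z ∈ (univ.filter (fun z : J → V F => ∀ i, i ∉ S → z i ∈ U)).filter
        (fun z => ¬ WW S z = U), ts (Ph Q S B dd a c z))
    have e5 := le_abs_self (∑ z ∈ univ.filter (fun z : J → V F => ∀ i, i ∉ S → z i ∈ U),
      ts (Ph Q S B dd a c z))
    linarith
  obtain ⟨TT, hTT⟩ : ∃ TT : Submodule F (V F) → ℝ, TT = fun U =>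
      |∑ z ∈ univ.filter (fun z : J → V F => ∀ i, i ∉ S → z i ∈ U), ts (Ph Q S B dd a c z)| :=
    ⟨_, rfl⟩
  have hX2 : ∑ z ∈ ZZ0.filter (fun z => MI Q (WW S z)), ts (Ph Q S B dd a c z) ≤
      ∑ U ∈ UU, TT U + ((Fintype.card F ^ 8 * Fintype.card F ^ (4 + Sᶜ.card + 4 * S.card) : ℕ) : ℝ) := by
    rw [← sum_fiberwise_of_maps_to hmaps]
    refine (sum_le_sum hU1).trans ?_
    rw [sum_add_distrib, sum_const, nsmul_eq_mul, hTT]
    refine add_le_add le_rfl ?_
    exact_mod_cast Nat.mul_le_mul_right _ hUUc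
  -- the isotropic subspaces
  have hiso : (UU.filter fun U => ∀ z ∈ U, ga Q z = 0 ∧ gc Q z = 0).card ≤ Q + 1 := by
    have e1 := h3 F Q hQ
    have e2 : {U : Submodule F (V F) | Nat.card U = Fintype.card F ^ 2 ∧
        (∀ z ∈ U, ∀ z' ∈ U, hf Q z z' = 0) ∧ ∀ z ∈ U, ga Q z = 0 ∧ gc Q z = 0} =
        ((UU.filter fun U => ∀ z ∈ U, ga Q z = 0 ∧ gc Q z = 0 : Finset (Submodule F (V F))) :
          Set (Submodule F (V F))) := by
      ext U
      rw [mem_coe, mem_filter, hUU]
      constructor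
      · rintro ⟨h1, h2, h3⟩
        exact ⟨⟨h1, h2⟩, h3⟩
      · rintro ⟨⟨h1, h2⟩, h3⟩
        exact ⟨h1, h2, h3⟩
    rw [e2, Set.ncard_coe_finset] at e1
    exact e1
  have hQ0 : (0 : ℝ) < Q := by exact_mod_cast (by omega : 0 < Q)
  have hq0 : (0 : ℝ) < Fintype.card F := by exact_mod_cast Fintype.card_pos
  have hTA : ∑ U ∈ UU.filter (fun U => ∀ z ∈ U, ga Q z = 0 ∧ gc Q z = 0), TT U ≤
      (Q + 1) * (Fintype.card F : ℝ) ^ (2 * S.card + 2 * Sᶜ.card) := by
    have e1 : ∀ U ∈ UU.filter (fun U => ∀ z ∈ U, ga Q z = 0 ∧ gc Q z = 0), TT U ≤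
        (Fintype.card F : ℝ) ^ (2 * S.card + 2 * Sᶜ.card) := by
      intro U hU
      rw [mem_filter, hUU] at hU
      rw [hTT]
      exact TU_B h2 hQ hB S hdd a c inj hU.1 hU.2
    refine (sum_le_card_nsmul _ _ _ e1).trans ?_
    rw [nsmul_eq_mul]
    refine mul_le_mul_of_nonneg_right ?_ (by positivity)
    exact_mod_cast hiso
  have hTB : ∑ U ∈ UU.filter (fun U => ¬ ∀ z ∈ U, ga Q z = 0 ∧ gc Q z = 0), TT U ≤
      1 / 24 * (Fintype.card F : ℝ) ^ (2 * S.card + 2 * Sᶜ.card) := by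
    have e1 : ∀ U ∈ UU.filter (fun U => ¬ ∀ z ∈ U, ga Q z = 0 ∧ gc Q z = 0), TT U ≤
        (Fintype.card F : ℝ) ^ (4 * S.card + 2 * Sᶜ.card) / (Q : ℝ) ^ (4 * S.card + 64) := by
      intro U hU
      rw [mem_filter, hUU] at hU
      rw [hTT, le_div_iff₀ (by positivity)]
      exact TU_A h2 hQ hB S hdd a c hG hU.1 hU.2
    refine (sum_le_card_nsmul _ _ _ e1).trans ?_
    rw [nsmul_eq_mul]
    have e2 : (((UU.filter (fun U => ¬ ∀ z ∈ U, ga Q z = 0 ∧ gc Q z = 0)).card : ℕ) : ℝ) ≤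
        (Fintype.card F : ℝ) ^ 8 := by
      exact_mod_cast (card_filter_le _ _).trans hUUc
    have e3 : (24 : ℝ) * ((Fintype.card F : ℝ) ^ 8 * (Fintype.card F : ℝ) ^ (4 * S.card + 2 * Sᶜ.card)) ≤
        (Fintype.card F : ℝ) ^ (2 * S.card + 2 * Sᶜ.card) * (Q : ℝ) ^ (4 * S.card + 64) := by
      exact_mod_cast num_c (l := Sᶜ.card) (s := S.card) hq4 hQ
    refine (mul_le_mul_of_nonneg_right e2 (by positivity)).trans ?_
    rw [mul_div_assoc', div_le_iff₀ (by positivity)]
    linarith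
  have hTT2 : ∑ U ∈ UU, TT U ≤ (Q + 1 + 1 / 24) *
      (Fintype.card F : ℝ) ^ (2 * S.card + 2 * Sᶜ.card) := by
    rw [← sum_filter_add_sum_filter_not UU (fun U => ∀ z ∈ U, ga Q z = 0 ∧ gc Q z = 0)]
    linarith
  have hna : (24 : ℝ) * (((Sᶜ.card + 1) ^ 4 * Fintype.card F ^ (20 + Sᶜ.card + 4 * S.card) : ℕ) : ℝ) ≤
      (Fintype.card F : ℝ) ^ (2 * S.card + 2 * Sᶜ.card) := by
    exact_mod_cast num_a hq4 hl
  have hnb : (24 : ℝ) *
      ((Fintype.card F ^ 8 * Fintype.card F ^ (4 + Sᶜ.card + 4 * S.card) : ℕ) : ℝ) ≤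
      (Fintype.card F : ℝ) ^ (2 * S.card + 2 * Sᶜ.card) := by
    exact_mod_cast num_b hq4 hl
  rw [← sum_filter_add_sum_filter_not ZZ0 (fun z => MI Q (WW S z))]
  linarith

end phase

theorem t_LAU (h1 : S_UORT) (h2 : S_UGAU) (h3 : S_UISO) (h4 : S_URST) : S_LAU := by
  intro F _ _ _ Q hQ J _ _ S B dd a c hB hdd inj hG
  have e0 := h1 F Q hQ J S B dd a c hB
  have e1 := main_sum h2 h3 h4 hQ S a c hB hdd inj hG
  have hn : 2 * Fintype.card J = 2 * S.card + 2 * Sᶜ.card := by
    have : S.card + Sᶜ.card = Fintype.card J := card_add_card_compl S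
    omega
  have hq0 : (0 : ℝ) < (Fintype.card F : ℝ) ^ (2 * Fintype.card J) := by
    have : (0 : ℝ) < Fintype.card F := by exact_mod_cast Fintype.card_pos
    positivity
  refine le_of_mul_le_mul_left ?_ hq0
  rw [e0]
  refine (mul_le_mul_of_nonneg_left (c := (Q + 9 / 8) *
    (Fintype.card F : ℝ) ^ (2 * S.card + 2 * Sᶜ.card)) ?_ (Nat.cast_nonneg _)).trans (le_of_eq ?_)
  · refine le_trans (le_of_eq ?_) e1
    refine sum_congr ?_ fun z _ => rfl
    ext z
    simp only [mem_filter]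
  · rw [hn]
    ring

end Pool.Agent.Q24.GR.LAU
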