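import Pool.Agent.Q269.GR.StB
import Pool.Agent.H341R2.WeilSharp

/-!
# Project GR, job OPB: the large sieve inequality for the symbols
-/

set_option autoImplicit false
set_option linter.all false

open scoped Classical
open Finset Polynomial

namespace Pool.Agent.Q24.GR

open Pool.Agent.Q269.GR
open Pool.Agent.Y164.PS (L sg sg_sum sg_add sg_zero sg_one)
open Pool.Agent.H341R2.Sharp (Mon mem_Mon weil_sharp)

section frob

variable (k : Type) [Field k] [Fintype k]

/-- the power of the Frobenius -/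
noncomputable def Fr (n : ℕ) : Om k →ₐ[k] Om k := (FiniteField.frobeniusAlgHom k (Om k)) ^ n

theorem Fr_apply (n : ℕ) (x : Om k) : Fr k n x = x ^ (Fintype.card k ^ n) := by
  unfold Fr
  rw [AlgHom.coe_pow, FiniteField.coe_frobeniusAlgHom, pow_iterate]

variable {k}

/-- products over the conjugates of a root -/
noncomputable def Gp (g : ℕ) (p : ℕ → Prop) (P : k[X]) : (Om k)[X] :=
  ∏ l ∈ (range P.natDegree).filter (fun l => p (l % g)), (X - C (rt P ^ (Fintype.card k ^ l)))

theorem Gp_map (h3 : S_RTP) {P : k[X]} (hP : P.Monic) (hi : Irreducible P) {g n : ℕ}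
    (hg : g ∣ P.natDegree) (hn : g ∣ n) (p : ℕ → Prop) :
    (Gp g p P).map (Fr k n : Om k →+* Om k) = Gp g p P := by
  obtain ⟨_, _, _, hmod, _⟩ := h3 k P hP hi
  have hd : 0 < P.natDegree := hi.natDegree_pos
  have hshift : ∀ l, (l + n) % P.natDegree % g = l % g := by
    intro l
    rw [Nat.mod_mod_of_dvd _ hg, Nat.add_mod, Nat.mod_eq_zero_of_dvd hn, add_zero, Nat.mod_mod]
  unfold Gp
  rw [Polynomial.map_prod]
  have hmaps : ∀ l ∈ (range P.natDegree).filter (fun l => p (l % g)),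
      (l + n) % P.natDegree ∈ (range P.natDegree).filter (fun l => p (l % g)) := by
    intro l hl
    rw [mem_filter, mem_range] at hl ⊢
    exact ⟨Nat.mod_lt _ hd, by rw [hshift]; exact hl.2⟩
  have hinj : Set.InjOn (fun l => (l + n) % P.natDegree)
      ((range P.natDegree).filter (fun l => p (l % g)) : Set ℕ) := by
    intro a ha b hb hab
    rw [mem_coe, mem_filter, mem_range] at ha hb
    have h1 : a + n ≡ b + n [MOD P.natDegree] := hab
    have h2 : a ≡ b [MOD P.natDegree] := Nat.ModEq.add_right_cancel' n h1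
    exact Nat.ModEq.eq_of_lt_of_lt h2 ha.1 hb.1
  refine prod_nbij (fun l => (l + n) % P.natDegree) hmaps hinj
    (surjOn_of_injOn_of_card_le _ hmaps hinj le_rfl) ?_
  intro l _
  rw [Polynomial.map_sub, map_X, map_C]
  congr 2
  have h1 : (Fr k n : Om k →+* Om k) (rt P ^ Fintype.card k ^ l) =
      rt P ^ (Fintype.card k ^ (l + n)) := by
    show Fr k n (rt P ^ Fintype.card k ^ l) = _
    rw [Fr_apply, ← pow_mul, ← pow_add]
  rw [h1]
  exact (hmod _ _).2 (Nat.mod_modEq _ _).symm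

theorem Gp_eval (g : ℕ) (p : ℕ → Prop) (P : k[X]) (x : Om k) : (Gp g p P).eval x =
    ∏ l ∈ (range P.natDegree).filter (fun l => p (l % g)), (x - rt P ^ (Fintype.card k ^ l)) := by
  unfold Gp
  rw [eval_prod]
  exact prod_congr rfl fun l _ => by rw [eval_sub, eval_X, eval_C]

theorem Gp_eval_frob (h3 : S_RTP) {P : k[X]} (hP : P.Monic) (hi : Irreducible P) {g n : ℕ}
    (hg : g ∣ P.natDegree) (hn : g ∣ n) (p : ℕ → Prop) (x : Om k) :
    (Gp g p P).eval (x ^ (Fintype.card k ^ n)) = ((Gp g p P).eval x) ^ (Fintype.card k ^ n) := by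
  have h1 := Gp_map h3 hP hi hg hn p
  rw [← Fr_apply, ← Fr_apply]
  conv_lhs => rw [← h1]
  exact Polynomial.eval_map_apply _ _

end frob

section lift

variable {k : Type} [Field k] [Fintype k] {E : Type} [Field E] [Fintype E] [Algebra k E]
  (j : E →ₐ[k] Om k) {d' : ℕ}

/-- the product as a polynomial over `E` -/
theorem Gp_lift (h3 : S_RTP) (hj : ∀ x : Om k, inK k d' x ↔ x ∈ Set.range j) {P : k[X]}
    (hP : P.Monic) (hi : Irreducible P) {g : ℕ} (hg : g ∣ P.natDegree) (hg' : g ∣ d')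
    (p : ℕ → Prop) : ∃ H : E[X], H.map (j : E →+* Om k) = Gp g p P := by
  have h1 : Gp g p P ∈ lifts (j : E →+* Om k) := by
    rw [lifts_iff_coeff_lifts]
    intro n
    have h2 := Gp_map h3 hP hi hg hg' p
    have h3 := congrArg (fun Q : (Om k)[X] => Q.coeff n) h2
    simp only [coeff_map] at h3
    have h4 : inK k d' ((Gp g p P).coeff n) := by
      unfold inK
      rw [← Fr_apply]
      exact h3
    obtain ⟨e, he⟩ := (hj _).1 h4
    exact ⟨e, he⟩
  exact (mem_lifts _).1 h1

theorem eval_lift {H : E[X]} {Q : (Om k)[X]} (h : H.map (j : E →+* Om k) = Q) (x : E) :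
    j (H.eval x) = Q.eval (j x) := by
  rw [← h]
  exact (Polynomial.eval_map_apply (f := (j : E →+* Om k)) (p := H) x).symm

/-- the symbol is the quadratic character -/
theorem sg_sgd (hj : ∀ x : Om k, inK k d' x ↔ x ∈ Set.range j) {e : E} (he : e ≠ 0) :
    sg (sgd k d' (j e)) = (quadraticChar E e : ℝ) := by
  have h1 : (∃ y : Om k, inK k d' y ∧ j e = y ^ 2) ↔ IsSquare e := by
    constructor
    · rintro ⟨y, hy, hy2⟩
      obtain ⟨f, rfl⟩ := (hj y).1 hy
      refine ⟨f, j.toRingHom.injective ?_⟩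
      show j e = j (f * f)
      rw [hy2, map_mul, sq]
    · rintro ⟨f, hf⟩
      refine ⟨j f, (hj _).2 ⟨f, rfl⟩, ?_⟩
      rw [hf, map_mul, sq]
  unfold sgd
  by_cases h : IsSquare e
  · rw [if_pos (h1.2 h), sg_zero, (quadraticChar_one_iff_isSquare he).2 h]
    norm_num
  · rw [if_neg (fun h' => h (h1.1 h')), sg_one, quadraticChar_neg_one_iff_not_isSquare.2 h]
    norm_num

end lift

section symb

variable {k : Type} [Field k] [Fintype k]

theorem Gp_inK (h3 : S_RTP) {P P' : k[X]} (hP : P.Monic) (hi : Irreducible P) (hP' : P'.Monic)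
    (hi' : Irreducible P') {g : ℕ} (hg : g ∣ P.natDegree) (hg' : g ∣ P'.natDegree)
    (p : ℕ → Prop) : inK k P'.natDegree ((Gp g p P).eval (rt P')) := by
  unfold inK
  rw [← Gp_eval_frob h3 hP hi hg hg' p, (h3 k P' hP' hi').2.1]

theorem Gp_ne (h3 : S_RTP) {P P' : k[X]} (hP : P.Monic) (hi : Irreducible P) (hP' : P'.Monic)
    (hi' : Irreducible P') (hne : P ≠ P') (g : ℕ)
    (p : ℕ → Prop) : (Gp g p P).eval (rt P') ≠ 0 := by
  rw [Gp_eval, prod_ne_zero_iff]
  intro l _
  rw [sub_ne_zero]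
  have h := (h3 k P hP hi).2.2.2.2 P' hP' hi' hne.symm l 0
  rw [pow_zero, pow_one] at h
  exact h.symm

theorem sum_sy (h2 : S_SGD) (h3 : S_RTP) (hk : ringChar k ≠ 2) {P P' : k[X]} (hP : P.Monic)
    (hi : Irreducible P) (hP' : P'.Monic) (hi' : Irreducible P') (hne : P ≠ P') {g : ℕ}
    (hg : g ∣ P.natDegree) (hg' : g ∣ P'.natDegree) (s : Finset ℕ) :
    ∑ c ∈ s, sy g P P' c = sgd k P'.natDegree ((Gp g (fun c => c ∈ s) P).eval (rt P')) := by
  have hd' : 0 < P'.natDegree := hi'.natDegree_pos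
  obtain ⟨hmul, _⟩ := h2 k hk _ hd'
  induction s using Finset.induction_on with
  | empty =>
    rw [sum_empty, Gp_eval]
    simp only [notMem_empty, filter_false, prod_empty]
    unfold sgd
    rw [if_pos]
    refine ⟨1, ?_, by norm_num⟩
    unfold inK
    rw [one_pow]
  | insert c s hc ih =>
    rw [sum_insert hc, ih]
    have e1 : (Gp g (fun c' => c' ∈ insert c s) P).eval (rt P') =
        (Gp g (fun c' => c' = c) P).eval (rt P') * (Gp g (fun c' => c' ∈ s) P).eval (rt P') := by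
      rw [Gp_eval, Gp_eval, Gp_eval, ← prod_union]
      · refine prod_congr ?_ fun _ _ => rfl
        ext l
        simp only [mem_filter, mem_union, mem_insert]
        tauto
      · rw [Finset.disjoint_left]
        intro l h1 h2
        simp only [mem_filter] at h1 h2
        exact hc (h1.2 ▸ h2.2)
    rw [e1, hmul _ _ (Gp_inK h3 hP hi hP' hi' hg hg' _) (Gp_inK h3 hP hi hP' hi' hg hg' _)
      (Gp_ne h3 hP hi hP' hi' hne _ _) (Gp_ne h3 hP hi hP' hi' hne _ _)]
    congr 1
    unfold sy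
    rw [Gp_eval]
    congr 1
    exact prod_congr (by ext l; simp only [mem_filter]) fun _ _ => rfl

theorem sum_u_sy (h2 : S_SGD) (h3 : S_RTP) (hk : ringChar k ≠ 2) {P P' : k[X]} (hP : P.Monic)
    (hi : Irreducible P) (hP' : P'.Monic) (hi' : Irreducible P') (hne : P ≠ P') {g : ℕ}
    (hg : g ∣ P.natDegree) (hg' : g ∣ P'.natDegree) (u : ℕ → F2) :
    ∑ c ∈ range g, u c * sy g P P' c =
      sgd k P'.natDegree ((Gp g (fun c => c < g ∧ u c = 1) P).eval (rt P')) := by
  have h01 : ∀ z : F2, z = 0 ∨ z = 1 := by decide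
  have h1 : ∑ c ∈ range g, u c * sy g P P' c =
      ∑ c ∈ (range g).filter (fun c => u c = 1), sy g P P' c := by
    rw [sum_filter]
    refine sum_congr rfl fun c _ => ?_
    rcases h01 (u c) with h | h
    · rw [h, zero_mul, if_neg (by decide)]
    · rw [h, one_mul, if_pos rfl]
  rw [h1, sum_sy h2 h3 hk hP hi hP' hi' hne hg hg']
  congr 2
  simp only [mem_filter, mem_range]

end symb

section weil

variable {k : Type} [Field k] [Fintype k]

theorem Gp_natDegree (g : ℕ) (p : ℕ → Prop) (P : k[X]) : (Gp g p P).natDegree =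
    ((range P.natDegree).filter (fun l => p (l % g))).card := by
  unfold Gp
  rw [natDegree_prod_of_monic _ _ (fun l _ => monic_X_sub_C _)]
  simp only [natDegree_X_sub_C, sum_const, smul_eq_mul, mul_one]

theorem Gp_sep (h3 : S_RTP) {P : k[X]} (hP : P.Monic) (hi : Irreducible P) (g : ℕ)
    (p : ℕ → Prop) : (Gp g p P).Separable := by
  unfold Gp
  rw [separable_prod_X_sub_C_iff']
  intro x hx y hy hxy
  rw [mem_filter, mem_range] at hx hy
  exact Nat.ModEq.eq_of_lt_of_lt (((h3 k P hP hi).2.2.2.1 x y).1 hxy) hx.1 hy.1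

theorem Gp_cop (h3 : S_RTP) {P P' : k[X]} (hP : P.Monic) (hi : Irreducible P) (hP' : P'.Monic)
    (hi' : Irreducible P') (hne : P ≠ P') (g : ℕ) (p : ℕ → Prop) :
    IsCoprime (Gp g p P) (Gp g p P') := by
  unfold Gp
  refine IsCoprime.prod_left fun l _ => IsCoprime.prod_right fun m _ => ?_
  refine isCoprime_X_sub_C_of_isUnit_sub (isUnit_iff_ne_zero.2 (sub_ne_zero.2 ?_))
  exact (h3 k P hP hi).2.2.2.2 P' hP' hi' hne.symm l m

theorem weil_two {E : Type} [Field E] [Fintype E] [Algebra k E] (j : E →ₐ[k] Om k)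
    (h3 : S_RTP) (hk : ringChar k ≠ 2) {P P' : k[X]} (hP : P.Monic) (hi : Irreducible P)
    (hP' : P'.Monic) (hi' : Irreducible P') (hne : P ≠ P') {g d : ℕ} (hd : P.natDegree = d)
    (hd' : P'.natDegree = d) (hgd : g ≤ d) {p : ℕ → Prop} (hp : ∃ c < g, p c) {H H' : E[X]}
    (hH : H.map (j : E →+* Om k) = Gp g p P) (hH' : H'.map (j : E →+* Om k) = Gp g p P') :
    |∑ x : E, (quadraticChar E (H.eval x) : ℝ) * (quadraticChar E (H'.eval x) : ℝ)| ≤
      2 * d * Real.sqrt (Fintype.card E) := by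
  have hE : ringChar E ≠ 2 := by
    rw [← Algebra.ringChar_eq k E]
    exact hk
  have hinj : Function.Injective (j : E →+* Om k) := (j : E →+* Om k).injective
  have hmap : (H * H').map (j : E →+* Om k) = Gp g p P * Gp g p P' := by
    rw [Polynomial.map_mul, hH, hH']
  have hcard : ((range d).filter (fun l => p (l % g))).card ≤ d := by
    refine (card_filter_le _ _).trans (le_of_eq (card_range d))
  have hpos : 1 ≤ ((range d).filter (fun l => p (l % g))).card := by
    obtain ⟨c, hc, hpc⟩ := hp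
    refine card_pos.2 ⟨c, ?_⟩
    rw [mem_filter, mem_range, Nat.mod_eq_of_lt hc]
    exact ⟨lt_of_lt_of_le hc hgd, hpc⟩
  have hG1 : (Gp g p P).Monic := by
    unfold Gp
    exact monic_prod_of_monic _ _ fun l _ => monic_X_sub_C _
  have hG2 : (Gp g p P').Monic := by
    unfold Gp
    exact monic_prod_of_monic _ _ fun l _ => monic_X_sub_C _
  have hdeg : (H * H').natDegree = 2 * ((range d).filter (fun l => p (l % g))).card := by
    rw [← natDegree_map (j : E →+* Om k), hmap, hG1.natDegree_mul hG2, Gp_natDegree,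
      Gp_natDegree, hd, hd', two_mul]
  have hsep : (Gp g p P * Gp g p P').Separable :=
    (Gp_sep h3 hP hi g p).mul (Gp_sep h3 hP' hi' g p) (Gp_cop h3 hP hi hP' hi' hne g p)
  have hw := weil_sharp hE (H * H') (by rw [hdeg]; omega) (by
    intro c h hc
    have e1 : Gp g p P * Gp g p P' = C (j c) * (h.map (j : E →+* Om k)) ^ 2 := by
      rw [← hmap, hc, Polynomial.map_mul, map_C, Polynomial.map_pow]
      rfl
    have e2 : IsUnit (h.map (j : E →+* Om k)) := by
      refine hsep.squarefree _ ?_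
      rw [e1, sq]
      exact dvd_mul_left _ _
    have e3 : (Gp g p P * Gp g p P').natDegree = 0 := by
      rw [e1]
      refine Nat.le_zero.1 (natDegree_mul_le.trans ?_)
      rw [natDegree_C, zero_add]
      refine (natDegree_pow_le).trans ?_
      rw [natDegree_eq_zero_of_isUnit e2, mul_zero]
    rw [← hmap, natDegree_map, hdeg] at e3
    omega)
  simp only [eval_mul, map_mul, Int.cast_mul] at hw
  refine hw.trans ?_
  refine mul_le_mul_of_nonneg_right ?_ (Real.sqrt_nonneg _)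
  rw [hdeg]
  push_cast
  have : (((range d).filter (fun l => p (l % g))).card : ℝ) ≤ d := by exact_mod_cast hcard
  linarith

theorem quad_pow {E : Type} [Field E] [Fintype E] {m : ℕ} (hm : Odd m) (y : E) :
    quadraticChar E (y ^ m) = quadraticChar E y := by
  rw [map_pow]
  by_cases h : y = 0
  · rw [h]
    simp [hm.pos.ne']
  · rcases quadraticChar_dichotomy h with h1 | h1
    · rw [h1, one_pow]
    · rw [h1, hm.neg_one_pow]

end weil

theorem t_OPB (h1 : S_FLD) (h2 : S_SGD) (h3 : S_RTP) : S_OPB := by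
  intro k _ _ hk g d d' hg hd hd' hgd hgd' hdd u hu w
  obtain ⟨E, _, _, _, j, hcard, _, hj⟩ := h1 k d' hd'
  obtain ⟨q, hq⟩ : ∃ q, q = Fintype.card k := ⟨_, rfl⟩
  have h01 : ∀ z : F2, z = 0 ∨ z = 1 := by decide
  obtain ⟨p, hpdef⟩ : ∃ p : ℕ → Prop, p = fun c => c < g ∧ u c = 1 := ⟨_, rfl⟩
  have hp : ∃ c < g, p c := by
    obtain ⟨c, hc, huc⟩ := hu
    refine ⟨c, hc, ?_⟩
    rw [hpdef]
    exact ⟨hc, (h01 (u c)).resolve_left huc⟩
  have hirn : ∀ (e : ℕ) (P : k[X]), P ∈ Irn k e ↔ (P.Monic ∧ P.natDegree = e) ∧ Irreducible P := by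
    intro e P
    unfold Irn
    rw [mem_filter, mem_Mon]
  -- the polynomials over `E`
  have hex : ∀ P : k[X], ∃ H : E[X], P ∈ Irn k d → H.map (j : E →+* Om k) = Gp g p P := by
    intro P
    by_cases h : P ∈ Irn k d
    · obtain ⟨⟨hm, hdP⟩, hi⟩ := (hirn _ _).1 h
      obtain ⟨H, hH⟩ := Gp_lift j h3 hj hm hi (g := g) (by rw [hdP]; exact hgd) hgd' p
      exact ⟨H, fun _ => hH⟩
    · exact ⟨0, fun h' => absurd h' h⟩
  choose H hH using hex
  obtain ⟨S, hS⟩ : ∃ S : E → ℝ, S = fun x =>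
    ∑ P ∈ Irn k d, w P * (quadraticChar E ((H P).eval x) : ℝ) := ⟨_, rfl⟩
  -- the roots
  have hexx : ∀ P' : k[X], ∃ x : E, P' ∈ Irn k d' → j x = rt P' := by
    intro P'
    by_cases h : P' ∈ Irn k d'
    · obtain ⟨⟨hm, hdP⟩, hi⟩ := (hirn _ _).1 h
      have h5 := (h3 k P' hm hi).2.1
      rw [hdP] at h5
      obtain ⟨x, hx⟩ := (hj _).1 h5
      exact ⟨x, fun _ => hx⟩
    · exact ⟨0, fun h' => absurd h' h⟩
  choose xx hxx using hexx
  have step1 : ∀ P' ∈ Irn k d',
      ∑ P ∈ Irn k d, w P * sg (∑ c ∈ range g, u c * sy g P P' c) = S (xx P') := by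
    intro P' hP'
    obtain ⟨⟨hm', hdP'⟩, hi'⟩ := (hirn _ _).1 hP'
    rw [hS]
    refine sum_congr rfl fun P hP => ?_
    obtain ⟨⟨hm, hdP⟩, hi⟩ := (hirn _ _).1 hP
    have hne : P ≠ P' := fun h => hdd (by rw [← hdP, h, hdP'])
    rw [sum_u_sy h2 h3 hk hm hi hm' hi' hne (by rw [hdP]; exact hgd) (by rw [hdP']; exact hgd') u]
    have e1 : (Gp g (fun c => c < g ∧ u c = 1) P).eval (rt P') = j ((H P).eval (xx P')) := by
      rw [eval_lift j (hH P hP), hxx P' hP', hpdef]
    rw [e1, hdP', sg_sgd j hj]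
    intro h0
    rw [h0, map_zero] at e1
    exact Gp_ne h3 hm hi hm' hi' hne g _ e1
  have hqodd : Odd (Fintype.card k) := by
    rw [Nat.odd_iff]
    exact FiniteField.odd_card_of_char_ne_two hk
  have step2 : ∀ (x : E) (i : ℕ), S (x ^ (Fintype.card k ^ (g * i))) = S x := by
    intro x i
    rw [hS]
    refine sum_congr rfl fun P hP => ?_
    obtain ⟨⟨hm, hdP⟩, hi⟩ := (hirn _ _).1 hP
    have e1 : (H P).eval (x ^ (Fintype.card k ^ (g * i))) =
        ((H P).eval x) ^ (Fintype.card k ^ (g * i)) := by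
      refine (j : E →+* Om k).injective ?_
      show j _ = j _
      rw [eval_lift j (hH P hP), map_pow, map_pow, eval_lift j (hH P hP)]
      exact Gp_eval_frob h3 hm hi (by rw [hdP]; exact hgd) (dvd_mul_right _ _) p _
    rw [e1, quad_pow (hqodd.pow)]
  -- the sum over the conjugates
  have step3 : ((d' / g : ℕ) : ℝ) * ∑ P' ∈ Irn k d', S (xx P') ^ 2 ≤ ∑ x : E, S x ^ 2 := by
    have e1 : ((d' / g : ℕ) : ℝ) * ∑ P' ∈ Irn k d', S (xx P') ^ 2 =
        ∑ z ∈ Irn k d' ×ˢ range (d' / g), S ((xx z.1) ^ (Fintype.card k ^ (g * z.2))) ^ 2 := by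
      rw [sum_product, mul_sum]
      refine sum_congr rfl fun P' _ => ?_
      simp only [step2]
      rw [sum_const, card_range, nsmul_eq_mul]
    rw [e1]
    have hinj : Set.InjOn (fun z : k[X] × ℕ => (xx z.1) ^ (Fintype.card k ^ (g * z.2)))
        (Irn k d' ×ˢ range (d' / g) : Finset (k[X] × ℕ)) := by
      intro y hy z hz hyz
      rw [mem_coe, mem_product, mem_range] at hy hz
      have e2 := congrArg j hyz
      simp only [map_pow] at e2
      rw [hxx _ hy.1, hxx _ hz.1] at e2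
      obtain ⟨⟨hm, hdP⟩, hi⟩ := (hirn _ _).1 hy.1
      obtain ⟨⟨hm', hdP'⟩, hi'⟩ := (hirn _ _).1 hz.1
      have e3 : y.1 = z.1 := by
        by_contra hne
        exact (h3 k _ hm hi).2.2.2.2 _ hm' hi' (Ne.symm hne) _ _ e2
      rw [← e3] at e2
      have e4 := ((h3 k _ hm hi).2.2.2.1 _ _).1 e2
      rw [hdP] at e4
      have hb : ∀ i, i < d' / g → g * i < d' := by
        intro i hi
        calc g * i < g * (d' / g) := Nat.mul_lt_mul_of_pos_left hi hg
          _ ≤ d' := Nat.mul_div_le _ _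
      have e5 := Nat.ModEq.eq_of_lt_of_lt e4 (hb _ hy.2) (hb _ hz.2)
      exact Prod.ext e3 (Nat.eq_of_mul_eq_mul_left hg e5)
    rw [← sum_image (f := fun x => S x ^ 2) hinj]
    exact sum_le_univ_sum_of_nonneg fun x => sq_nonneg _
  -- the quadratic form
  have hcE : (Fintype.card E : ℝ) = (Fintype.card k : ℝ) ^ d' := by
    rw [hcard]
    push_cast
    rfl
  have hW : ∀ P ∈ Irn k d, ∀ P' ∈ Irn k d,
      |∑ x : E, (quadraticChar E ((H P).eval x) : ℝ) * (quadraticChar E ((H P').eval x) : ℝ)| ≤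
      (if P = P' then (Fintype.card k : ℝ) ^ d' else 0) +
        2 * d * Real.sqrt ((Fintype.card k : ℝ) ^ d') := by
    intro P hP P' hP'
    obtain ⟨⟨hm, hdP⟩, hi⟩ := (hirn _ _).1 hP
    obtain ⟨⟨hm', hdP'⟩, hi'⟩ := (hirn _ _).1 hP'
    have hsq : 0 ≤ 2 * d * Real.sqrt ((Fintype.card k : ℝ) ^ d') := by positivity
    by_cases h : P = P'
    · rw [if_pos h, ← h]
      have e1 : |∑ x : E, (quadraticChar E ((H P).eval x) : ℝ) *
          (quadraticChar E ((H P).eval x) : ℝ)| ≤ ∑ x : E, (1 : ℝ) := by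
        refine (abs_sum_le_sum_abs _ _).trans (sum_le_sum fun x _ => ?_)
        by_cases h0 : (H P).eval x = 0
        · rw [h0]
          simp
        · rcases quadraticChar_dichotomy h0 with h5 | h5
          · rw [h5]; norm_num
          · rw [h5]; norm_num
      rw [sum_const, nsmul_eq_mul, mul_one, card_univ, hcE] at e1
      linarith
    · rw [if_neg h, zero_add, ← hcE]
      exact weil_two j h3 hk hm hi hm' hi' h hdP hdP' (Nat.le_of_dvd hd hgd) hp (hH P hP) (hH P' hP')
  have step4 : ∑ x : E, S x ^ 2 ≤ ((Fintype.card k : ℝ) ^ d' + 2 * d *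
      Real.sqrt ((Fintype.card k : ℝ) ^ d') * (Irn k d).card) * ∑ P ∈ Irn k d, w P ^ 2 := by
    have e1 : ∑ x : E, S x ^ 2 = ∑ P ∈ Irn k d, ∑ P' ∈ Irn k d, w P * w P' *
        ∑ x : E, (quadraticChar E ((H P).eval x) : ℝ) * (quadraticChar E ((H P').eval x) : ℝ) := by
      have e2 : ∀ x : E, S x ^ 2 = ∑ P ∈ Irn k d, ∑ P' ∈ Irn k d, w P * w P' *
          ((quadraticChar E ((H P).eval x) : ℝ) * (quadraticChar E ((H P').eval x) : ℝ)) := by
        intro x
        rw [hS, sq, sum_mul_sum]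
        refine sum_congr rfl fun P _ => sum_congr rfl fun P' _ => by ring
      simp only [e2]
      rw [sum_comm]
      refine sum_congr rfl fun P _ => ?_
      rw [sum_comm]
      refine sum_congr rfl fun P' _ => ?_
      rw [mul_sum]
    rw [e1]
    obtain ⟨R, hR⟩ : ∃ R : ℝ, R = 2 * d * Real.sqrt ((Fintype.card k : ℝ) ^ d') := ⟨_, rfl⟩
    obtain ⟨Q, hQ⟩ : ∃ Q : ℝ, Q = (Fintype.card k : ℝ) ^ d' := ⟨_, rfl⟩
    have hR0 : 0 ≤ R := by rw [hR]; positivity
    have hQ0 : 0 ≤ Q := by rw [hQ]; positivity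
    rw [← hR, ← hQ]
    have hW' : ∀ P ∈ Irn k d, ∀ P' ∈ Irn k d,
        |∑ x : E, (quadraticChar E ((H P).eval x) : ℝ) * (quadraticChar E ((H P').eval x) : ℝ)| ≤
        (if P = P' then Q else 0) + R := by
      intro P hP P' hP'
      rw [hQ, hR]
      exact hW P hP P' hP'
    calc _ ≤ ∑ P ∈ Irn k d, ∑ P' ∈ Irn k d, |w P| * |w P'| * ((if P = P' then Q else 0) + R) := by
          refine sum_le_sum fun P hP => sum_le_sum fun P' hP' => ?_
          refine (le_abs_self _).trans ?_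
          rw [abs_mul, abs_mul]
          exact mul_le_mul_of_nonneg_left (hW' P hP P' hP') (by positivity)
      _ = Q * ∑ P ∈ Irn k d, w P ^ 2 + R * (∑ P ∈ Irn k d, |w P|) ^ 2 := by
          have e3 : ∀ P ∈ Irn k d, ∑ P' ∈ Irn k d, |w P| * |w P'| * ((if P = P' then Q else 0) + R) =
              Q * w P ^ 2 + R * (|w P| * ∑ P' ∈ Irn k d, |w P'|) := by
            intro P hP
            simp only [mul_add, sum_add_distrib, mul_ite, mul_zero]
            rw [sum_ite_eq, if_pos hP, mul_sum, mul_sum]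
            congr 1
            · rw [abs_mul_abs_self]
              ring
            · exact sum_congr rfl fun _ _ => by ring
          rw [sum_congr rfl e3, sum_add_distrib, ← mul_sum, ← mul_sum, ← sum_mul, sq]
      _ ≤ Q * ∑ P ∈ Irn k d, w P ^ 2 + R * ((Irn k d).card * ∑ P ∈ Irn k d, w P ^ 2) := by
          have e4 : (∑ P ∈ Irn k d, |w P|) ^ 2 ≤ (Irn k d).card * ∑ P ∈ Irn k d, w P ^ 2 := by
            have := sq_sum_le_card_mul_sum_sq (s := Irn k d) (f := fun P => |w P|)
            simpa only [sq_abs] using this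
          have := mul_le_mul_of_nonneg_left e4 hR0
          linarith
      _ = _ := by ring
  rw [sum_congr rfl fun P' hP' => by rw [step1 P' hP']]
  have hdg : ((d' / g : ℕ) : ℝ) = (d' : ℝ) / g := Nat.cast_div hgd' (by positivity)
  have hg0 : (0 : ℝ) < g := by exact_mod_cast hg
  have hd0 : (0 : ℝ) < d' := by exact_mod_cast hd'
  have h9 := step3.trans step4
  rw [hdg] at h9
  have h10 := mul_le_mul_of_nonneg_left h9 (show (0 : ℝ) ≤ g / d' by positivity)
  have h11 : (g : ℝ) / d' * (d' / g * ∑ P' ∈ Irn k d', S (xx P') ^ 2) =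
      ∑ P' ∈ Irn k d', S (xx P') ^ 2 := by field_simp
  rw [h11] at h10
  refine h10.trans (le_of_eq ?_)
  ring

end Pool.Agent.Q24.GR
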